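import Pool.Agent.Q326.Sat.Flags

/-!
# The blocking sets `{x}`, `Rᶜ`, `insert x Rᶜ` (`x ∈ R`)
-/

namespace Pool.Agent.Q326.Sat

open Finset

variable {V : Type} [DecidableEq V] [Fintype V]

/-- the family of blocking sets -/
def blockers (R : Finset V) : Finset (Finset V) :=
  R.image (fun x => {x}) ∪ ({Rᶜ} ∪ R.image (fun x => insert x Rᶜ))

/-- the sets of sizes `c, …, c + d - 1` -/
def middle (V : Type) [DecidableEq V] [Fintype V] (c d : ℕ) : Finset (Finset V) :=
  (univ : Finset (Finset V)).filter (fun S => c ≤ #S ∧ #S < c + d)

theorem mem_middle {c d : ℕ} {S : Finset V} : S ∈ middle V c d ↔ c ≤ #S ∧ #S < c + d := by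
  simp [middle]

theorem mem_blockers {R S : Finset V} :
    S ∈ blockers R ↔ (∃ x ∈ R, S = {x}) ∨ S = Rᶜ ∨ ∃ x ∈ R, S = insert x Rᶜ := by
  unfold blockers
  simp only [Finset.mem_union, Finset.mem_image, Finset.mem_singleton]
  constructor
  · rintro (⟨x, h1, h2⟩ | h | ⟨x, h1, h2⟩)
    · exact Or.inl ⟨x, h1, h2.symm⟩
    · exact Or.inr (Or.inl h)
    · exact Or.inr (Or.inr ⟨x, h1, h2.symm⟩)
  · rintro (⟨x, h1, h2⟩ | h | ⟨x, h1, h2⟩)
    · exact Or.inl ⟨x, h1, h2.symm⟩
    · exact Or.inr (Or.inl h)
    · exact Or.inr (Or.inr ⟨x, h1, h2.symm⟩)

/-- the blocking set `z` is comparable exactly with the middle sets, and the sets `T`, `insert v T`,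
whose trace on `R` satisfies `P` -/
structure Blocks (R : Finset V) (v : V) (c d : ℕ) (z : Finset V) (P : Finset V → Prop) : Prop where
  mem : z ∈ blockers R
  notMid : z ∉ middle V c d
  iffS : ∀ S ∈ middle V c d, (z ⊆ S ∨ S ⊆ z) ↔ P (S ∩ R)
  iffT : ∀ T : Finset V, v ∉ T → ((z ⊆ T ∨ insert v T ⊆ z) ↔ P (T ∩ R))

theorem blocks_low {R : Finset V} {v : V} (hv : v ∉ R) {c d : ℕ} (hc : 2 ≤ c) {x : V} (hx : x ∈ R) :
    Blocks R v c d {x} (fun ρ => x ∈ ρ) := by
  refine ⟨mem_blockers.2 (Or.inl ⟨x, hx, rfl⟩), ?_, ?_, ?_⟩
  · rw [mem_middle, Finset.card_singleton]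
    omega
  · intro S hS
    rw [mem_middle] at hS
    rw [Finset.singleton_subset_iff, Finset.mem_inter]
    constructor
    · rintro (h | h)
      · exact ⟨h, hx⟩
      · have := Finset.card_le_card h
        rw [Finset.card_singleton] at this
        omega
    · rintro ⟨h, _⟩
      exact Or.inl h
  · intro T hT
    rw [Finset.singleton_subset_iff, Finset.mem_inter]
    constructor
    · rintro (h | h)
      · exact ⟨h, hx⟩
      · have h1 := h (Finset.mem_insert_self v T)
        rw [Finset.mem_singleton] at h1
        exact absurd (h1 ▸ hx) hv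
    · rintro ⟨h, _⟩
      exact Or.inl h

theorem blocks_mid {R : Finset V} {v : V} (hv : v ∉ R) {c d : ℕ} (hd : c + d ≤ #(Rᶜ)) :
    Blocks R v c d Rᶜ (fun ρ => ρ = ∅) := by
  refine ⟨mem_blockers.2 (Or.inr (Or.inl rfl)), ?_, ?_, ?_⟩
  · rw [mem_middle]
    omega
  · intro S hS
    rw [mem_middle] at hS
    constructor
    · rintro (h | h)
      · have := Finset.card_le_card h
        omega
      · ext x
        simp only [Finset.mem_inter, Finset.notMem_empty, iff_false, not_and]
        intro h1 h2
        have := h h1
        rw [Finset.mem_compl] at this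
        exact this h2
    · intro h
      right
      intro x hxS
      rw [Finset.mem_compl]
      intro hxR
      have : x ∈ S ∩ R := Finset.mem_inter.2 ⟨hxS, hxR⟩
      rw [h] at this
      simp at this
  · intro T hT
    constructor
    · rintro (h | h)
      · exact absurd (h (Finset.mem_compl.2 hv)) hT
      · ext x
        simp only [Finset.mem_inter, Finset.notMem_empty, iff_false, not_and]
        intro h1 h2
        have := h (Finset.mem_insert_of_mem h1)
        rw [Finset.mem_compl] at this
        exact this h2
    · intro h
      right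
      intro x hxS
      rw [Finset.mem_compl]
      intro hxR
      rcases Finset.mem_insert.1 hxS with h1 | h1
      · exact hv (h1 ▸ hxR)
      · have : x ∈ T ∩ R := Finset.mem_inter.2 ⟨h1, hxR⟩
        rw [h] at this
        simp at this

theorem blocks_upp {R : Finset V} {v : V} (hv : v ∉ R) {c d : ℕ} (hd : c + d ≤ #(Rᶜ)) {x : V}
    (hx : x ∈ R) : Blocks R v c d (insert x Rᶜ) (fun ρ => ρ ⊆ {x}) := by
  have hbig : #(Rᶜ) ≤ #(insert x Rᶜ) := Finset.card_le_card (Finset.subset_insert _ _)
  refine ⟨mem_blockers.2 (Or.inr (Or.inr ⟨x, hx, rfl⟩)), ?_, ?_, ?_⟩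
  · rw [mem_middle]
    omega
  · intro S hS
    rw [mem_middle] at hS
    constructor
    · rintro (h | h)
      · have := Finset.card_le_card h
        omega
      · intro y hy
        rw [Finset.mem_inter] at hy
        have := h hy.1
        rw [Finset.mem_insert, Finset.mem_compl] at this
        rw [Finset.mem_singleton]
        tauto
    · intro h
      right
      intro y hyS
      rw [Finset.mem_insert, Finset.mem_compl]
      by_cases hyR : y ∈ R
      · left
        simpa using h (Finset.mem_inter.2 ⟨hyS, hyR⟩)
      · exact Or.inr hyR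
  · intro T hT
    constructor
    · rintro (h | h)
      · exact absurd (h (Finset.mem_insert_of_mem (Finset.mem_compl.2 hv))) hT
      · intro y hy
        rw [Finset.mem_inter] at hy
        have := h (Finset.mem_insert_of_mem hy.1)
        rw [Finset.mem_insert, Finset.mem_compl] at this
        rw [Finset.mem_singleton]
        tauto
    · intro h
      right
      intro y hyS
      rw [Finset.mem_insert, Finset.mem_compl]
      by_cases hyR : y ∈ R
      · left
        rcases Finset.mem_insert.1 hyS with h1 | h1
        · exact absurd (h1 ▸ hyR) hv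
        · simpa using h (Finset.mem_inter.2 ⟨h1, hyR⟩)
      · exact Or.inr hyR

/-- choice of the blocking sets and of the traces -/
theorem exists_types {m : ℕ} (J : Finset (Fin m)) (r : Fin m → V) (hr : ∀ j j', r j = r j' → j = j')
    {R : Finset V} (hR : R = J.image r) {v : V} (hv : v ∉ R) (T : Finset V) {c d : ℕ}
    (hc : 2 ≤ c) (hd : c + d ≤ #(Rᶜ)) :
    ∃ (ρ z : Fin m → Finset V) (P : Fin m → Finset V → Prop),
      (∀ j, ρ j ⊆ R) ∧ (∀ j, j ∉ J → ρ j = T ∩ R) ∧
      (∀ j ∈ J, Blocks R v c d (z j) (P j)) ∧ (∀ j ∈ J, P j (ρ j)) ∧
      (∀ j ∈ J, ∀ j', j' ≠ j → ¬ P j (ρ j')) ∧ (∀ j ∈ J, ¬ P j (T ∩ R)) ∧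
      (∀ j ∈ J, ∀ j' ∈ J, j ≠ j' → ¬ z j ⊆ z j') := by
  have hrR : ∀ j ∈ J, r j ∈ R := by
    intro j hj
    rw [hR]
    exact Finset.mem_image_of_mem r hj
  have hvR : v ∈ Rᶜ := Finset.mem_compl.2 hv
  have hτR : T ∩ R ⊆ R := Finset.inter_subset_right
  rcases Finset.eq_empty_or_nonempty (T ∩ R) with h0 | h0
  · -- empty trace
    refine ⟨fun j => if j ∈ J then {r j} else T ∩ R, fun j => {r j}, fun j ρ => r j ∈ ρ,
      ?_, ?_, ?_, ?_, ?_, ?_, ?_⟩
    · intro j
      by_cases hj : j ∈ J
      · simp only [hj, if_true]
        simpa using hrR j hj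
      · simp only [hj, if_false]
        exact hτR
    · intro j hj
      simp only [hj, if_false]
    · intro j hj
      exact blocks_low hv hc (hrR j hj)
    · intro j hj
      simp [hj]
    · intro j hj j' hne
      by_cases hj' : j' ∈ J
      · simp only [hj', if_true, Finset.mem_singleton]
        exact fun h => hne (hr _ _ h).symm
      · simp only [hj', if_false, h0]
        simp
    · intro j hj
      rw [h0]
      simp
    · intro j hj j' hj' hne h
      simp only [Finset.singleton_subset_iff, Finset.mem_singleton] at h
      exact hne (hr _ _ h)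
  · by_cases h1 : ∃ t, T ∩ R = {t}
    · -- trace with one element
      obtain ⟨t, ht⟩ := h1
      have htR : t ∈ R := hτR (by rw [ht]; simp)
      refine ⟨fun j => if j ∈ J then (if r j = t then ∅ else {r j}) else T ∩ R,
        fun j => if r j = t then Rᶜ else {r j},
        fun j ρ => if r j = t then ρ = ∅ else r j ∈ ρ, ?_, ?_, ?_, ?_, ?_, ?_, ?_⟩
      · intro j
        by_cases hj : j ∈ J
        · simp only [hj, if_true]
          split_ifs with h2
          · simp
          · simpa using hrR j hj
        · simp only [hj, if_false]
          exact hτR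
      · intro j hj
        simp only [hj, if_false]
      · intro j hj
        by_cases h2 : r j = t
        · simp only [h2, if_true]
          exact blocks_mid hv hd
        · simp only [h2, if_false]
          exact blocks_low hv hc (hrR j hj)
      · intro j hj
        by_cases h2 : r j = t
        · simp [h2, hj]
        · simp [h2, hj]
      · intro j hj j' hne
        by_cases h2 : r j = t
        · simp only [h2, if_true]
          by_cases hj' : j' ∈ J
          · have h3 : r j' ≠ t := fun h => hne (hr _ _ (h.trans h2.symm))
            simp [hj', h3]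
          · simp only [hj', if_false, ht]
            simp
        · simp only [h2, if_false]
          by_cases hj' : j' ∈ J
          · simp only [hj', if_true]
            split_ifs with h3
            · simp
            · rw [Finset.mem_singleton]
              exact fun h => hne (hr _ _ h).symm
          · simp only [hj', if_false, ht]
            rw [Finset.mem_singleton]
            exact h2
      · intro j hj
        by_cases h2 : r j = t
        · simp only [h2, if_true, ht]
          simp
        · simp only [h2, if_false, ht, Finset.mem_singleton]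
          exact fun h => h
      · intro j hj j' hj' hne
        by_cases h2 : r j = t
        · have h3 : r j' ≠ t := fun h => hne (hr _ _ (h2.trans h.symm))
          simp only [h2, if_true, h3, if_false]
          intro h
          have h4 := h hvR
          rw [Finset.mem_singleton] at h4
          exact hv (h4 ▸ hrR j' hj')
        · simp only [h2, if_false]
          split_ifs with h3
          · intro h
            rw [Finset.singleton_subset_iff, Finset.mem_compl] at h
            exact h (hrR j hj)
          · intro h
            rw [Finset.singleton_subset_iff, Finset.mem_singleton] at h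
            exact hne (hr _ _ h)
    · -- trace with at least two elements
      have h2 : ∀ x, ¬ T ∩ R ⊆ {x} := by
        intro x hx
        rcases Finset.subset_singleton_iff.1 hx with h | h
        · rw [h] at h0
          simp at h0
        · exact h1 ⟨x, h⟩
      refine ⟨fun j => if j ∈ J then {r j} else T ∩ R, fun j => insert (r j) Rᶜ,
        fun j ρ => ρ ⊆ {r j}, ?_, ?_, ?_, ?_, ?_, ?_, ?_⟩
      · intro j
        by_cases hj : j ∈ J
        · simp only [hj, if_true]
          simpa using hrR j hj
        · simp only [hj, if_false]
          exact hτR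
      · intro j hj
        simp only [hj, if_false]
      · intro j hj
        exact blocks_upp hv hd (hrR j hj)
      · intro j hj
        simp [hj]
      · intro j hj j' hne
        by_cases hj' : j' ∈ J
        · simp only [hj', if_true]
          intro h
          have := h (Finset.mem_singleton_self _)
          rw [Finset.mem_singleton] at this
          exact hne (hr _ _ this)
        · simp only [hj', if_false]
          exact h2 _
      · intro j hj
        exact h2 _
      · intro j hj j' hj' hne h
        have h3 := h (Finset.mem_insert_self _ _)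
        rw [Finset.mem_insert, Finset.mem_compl] at h3
        rcases h3 with h3 | h3
        · exact hne (hr _ _ h3)
        · exact h3 (hrR j hj)

end Pool.Agent.Q326.Sat
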