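import Pool.Agent.Q326.Sat.Free

/-!
# Bounded induced saturated families for unions of chains of unequal lengths
-/

namespace Pool.Agent.Q326.Sat

open Finset

theorem HasCopy.mono {P : Type} [LE P] {α : Type} {F F' : Finset (Finset α)} (h : HasCopy P F)
    (hsub : F ⊆ F') : HasCopy P F' := by
  obtain ⟨b, h1, h2, h3⟩ := h
  exact ⟨b, h1, fun p => hsub (h2 p), h3⟩

/-- the union of the fibres over `S` -/
def lift {α V : Type} [Fintype α] [DecidableEq V] (π : α → V) (S : Finset V) : Finset α :=
  (univ : Finset α).filter (fun a => π a ∈ S)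

section

variable {α V : Type} [Fintype α] [DecidableEq α] [DecidableEq V] [Fintype V]

omit [DecidableEq α] [Fintype V] in
theorem mem_lift {π : α → V} {S : Finset V} {a : α} : a ∈ lift π S ↔ π a ∈ S := by
  simp [lift]

omit [DecidableEq α] [Fintype V] in
theorem lift_subset {π : α → V} (hπ : Function.Surjective π) {S S' : Finset V} :
    lift π S ⊆ lift π S' ↔ S ⊆ S' := by
  constructor
  · intro h x hx
    obtain ⟨a, rfl⟩ := hπ x
    exact mem_lift.1 (h (mem_lift.2 hx))
  · intro h a ha
    exact mem_lift.2 (h (mem_lift.1 ha))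

omit [Fintype V] in
/-- a copy in the image of a family comes from a copy in the family -/
theorem hasCopy_of_image {P : Type} [PartialOrder P] {π : α → V} (hπ : Function.Surjective π)
    {F : Finset (Finset V)} (h : HasCopy P (F.image (lift π))) : HasCopy P F := by
  obtain ⟨b, -, h2, h3⟩ := h
  have hex : ∀ p, ∃ S ∈ F, lift π S = b p := fun p => Finset.mem_image.1 (h2 p)
  choose s hs1 hs2 using hex
  have key : ∀ p q, p ≤ q ↔ s p ⊆ s q := by
    intro p q
    rw [h3, ← hs2 p, ← hs2 q, lift_subset hπ]
  refine ⟨s, ?_, hs1, key⟩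
  intro p q h
  exact le_antisymm ((key p q).2 (by rw [h])) ((key q p).2 (by rw [h]))

omit [Fintype V] in
/-- every set is a union of fibres, or it is generic -/
theorem lift_or_generic {π : α → V} {v : V} (hinj : ∀ a b, π a = π b → π a ≠ v → a = b)
    (hπ : Function.Surjective π) (G : Finset α) :
    (∃ S, G = lift π S) ∨ ∃ T : Finset V, v ∉ T ∧ (∀ S, lift π S ⊆ G ↔ S ⊆ T) ∧
      ∀ S, G ⊆ lift π S ↔ insert v T ⊆ S := by
  by_cases h1 : ∃ a, π a = v ∧ a ∈ G
  · by_cases h2 : ∃ a, π a = v ∧ a ∉ G
    · right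
      obtain ⟨a, ha1, ha2⟩ := h1
      obtain ⟨a', ha1', ha2'⟩ := h2
      refine ⟨(G.image π).erase v, by simp, ?_, ?_⟩
      · intro S
        constructor
        · intro h x hx
          have hxv : x ≠ v := by
            rintro rfl
            exact ha2' (h (mem_lift.2 (by rw [ha1']; exact hx)))
          obtain ⟨y, rfl⟩ := hπ x
          exact Finset.mem_erase.2 ⟨hxv, Finset.mem_image_of_mem π (h (mem_lift.2 hx))⟩
        · intro h y hy
          have h3 := h (mem_lift.1 hy)
          rw [Finset.mem_erase, Finset.mem_image] at h3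
          obtain ⟨h3, z, hz, h4⟩ := h3
          have h5 := hinj y z h4.symm h3
          rw [h5]
          exact hz
      · intro S
        constructor
        · intro h x hx
          rcases Finset.mem_insert.1 hx with rfl | hx
          · rw [← ha1]
            exact mem_lift.1 (h ha2)
          · obtain ⟨y, hy, rfl⟩ := Finset.mem_image.1 (Finset.mem_of_mem_erase hx)
            exact mem_lift.1 (h hy)
        · intro h y hy
          apply mem_lift.2
          apply h
          by_cases h3 : π y = v
          · rw [h3]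
            exact Finset.mem_insert_self _ _
          · exact Finset.mem_insert_of_mem (Finset.mem_erase.2 ⟨h3, Finset.mem_image_of_mem π hy⟩)
    · left
      push Not at h2
      refine ⟨G.image π, ?_⟩
      ext y
      rw [mem_lift, Finset.mem_image]
      constructor
      · intro h
        exact ⟨y, h, rfl⟩
      · rintro ⟨z, hz, h⟩
        by_cases h3 : π y = v
        · exact h2 y h3
        · rw [hinj y z h.symm h3]
          exact hz
  · left
    push Not at h1
    refine ⟨G.image π, ?_⟩
    ext y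
    rw [mem_lift, Finset.mem_image]
    constructor
    · intro h
      exact ⟨y, h, rfl⟩
    · rintro ⟨z, hz, h⟩
      have h3 : π y ≠ v := fun h4 => h1 z (h.trans h4) hz
      rw [hinj y z h.symm h3]
      exact hz

/-- adding a generic set to the middle sets and the blocking sets creates a copy -/
theorem hasCopy_of_generic {m : ℕ} {i : Fin m → ℕ} {π : α → V} (hπ : Function.Surjective π)
    {v : V} (r : Fin m → V) (hr : ∀ j j', r j = r j' → j = j') (hv : ∀ j, r j ≠ v)
    {c d : ℕ} (hd1 : 1 ≤ d) (j₀ : Fin m) (J : Finset (Fin m)) (hj₀ : j₀ ∉ J)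
    (hi : ∀ j, i j ≤ d + 1) (hiJ : ∀ j, j ∉ J → j ≠ j₀ → i j ≤ d)
    (hc : #(J.image r) + 2 ≤ c) (hd : c + d + m + 2 ≤ #((J.image r)ᶜ))
    (G : Finset α) (T : Finset V) (hT : v ∉ T) (hG1 : ∀ S, lift π S ⊆ G ↔ S ⊆ T)
    (hG2 : ∀ S, G ⊆ lift π S ↔ insert v T ⊆ S) :
    HasCopy (Chains i) (insert G ((middle V c d ∪ blockers (J.image r)).image (lift π))) := by
  set R := J.image r with hR
  have hvR : v ∉ R := by
    rw [hR, Finset.mem_image]
    rintro ⟨j, _, h⟩
    exact hv j h
  obtain ⟨ρ, z, P, q1, q2, q3, q4, q5, q6, q7⟩ :=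
    exists_types J r hr hR hvR T (c := c) (d := d) (by omega) (by omega)
  obtain ⟨D, s1, s2, s3, s4, s5, s6⟩ :=
    exists_system j₀ T R v hT hvR c d hd1 hc hd ρ q1 (q2 j₀ hj₀)
  have hDmid : ∀ j, ∀ S ∈ D j, S ∈ middle V c d := fun j S hS =>
    mem_middle.2 ⟨(s3 j S hS).1, (s3 j S hS).2.1⟩
  have hzD : ∀ j ∈ J, ∀ j', j' ≠ j → ∀ S ∈ D j', ¬ (z j ⊆ S ∨ S ⊆ z j) := by
    intro j hj j' hne S hS h
    rw [(q3 j hj).iffS S (hDmid j' S hS), (s3 j' S hS).2.2] at h
    exact q5 j hj j' hne h
  have hzT : ∀ j ∈ J, ¬ (z j ⊆ T ∨ insert v T ⊆ z j) := by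
    intro j hj h
    rw [(q3 j hj).iffT T hT] at h
    exact q6 j hj h
  have hzc : ∀ j ∈ J, ∀ S ∈ D j, z j ⊆ S ∨ S ⊆ z j := by
    intro j hj S hS
    rw [(q3 j hj).iffS S (hDmid j S hS), (s3 j S hS).2.2]
    exact q4 j hj
  have hznot : ∀ j ∈ J, z j ∉ D j := fun j hj h => (q3 j hj).notMid (hDmid j _ h)
  -- the chains in the small cube
  set D' : Fin m → Finset (Finset V) := fun j => if j ∈ J then insert (z j) (D j) else D j with hD'
  have hD'mem : ∀ j, ∀ S ∈ D' j, S ∈ D j ∨ (j ∈ J ∧ S = z j) := by
    intro j S hS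
    simp only [hD'] at hS
    split_ifs at hS with h
    · rcases Finset.mem_insert.1 hS with h1 | h1
      · exact Or.inr ⟨h, h1⟩
      · exact Or.inl h1
    · exact Or.inl hS
  have hD'chain : ∀ j, IsChain (· ⊆ ·) (D' j : Set (Finset V)) := by
    intro j
    simp only [hD']
    split_ifs with h
    · rw [Finset.coe_insert]
      apply (s1 j).insert
      intro S hS _
      exact hzc j h S (by simpa using hS)
    · exact s1 j
  have hcard : ∀ j, j ≠ j₀ → i j ≤ #(D' j) := by
    intro j hj
    simp only [hD']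
    split_ifs with h
    · rw [Finset.card_insert_of_notMem (hznot j h), s2]
      exact hi j
    · rw [s2]
      exact hiJ j h hj
  have hcross : ∀ j j', j ≠ j' → ∀ S ∈ D' j, ∀ S' ∈ D' j', ¬ S ⊆ S' := by
    intro j j' hne S hS S' hS' hsub
    rcases hD'mem j S hS with h | ⟨h, rfl⟩
    · rcases hD'mem j' S' hS' with h' | ⟨h', rfl⟩
      · exact s4 j j' hne S h S' h' hsub
      · exact hzD j' h' j hne S h (Or.inr hsub)
    · rcases hD'mem j' S' hS' with h' | ⟨h', rfl⟩
      · exact hzD j h j' hne.symm S' h' (Or.inl hsub)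
      · exact q7 j h j' h' hne hsub
  have hGD : ∀ j, j ≠ j₀ → ∀ S ∈ D' j, ¬ S ⊆ T ∧ ¬ insert v T ⊆ S := by
    intro j hj S hS
    rcases hD'mem j S hS with h | ⟨h, rfl⟩
    · exact s6 j hj S h
    · have := hzT j h
      tauto
  have hGD0 : ∀ S ∈ D' j₀, S ⊆ T ∨ insert v T ⊆ S := by
    intro S hS
    simp only [hD', hj₀, if_false] at hS
    exact s5 S hS
  have hD'F : ∀ j, D' j ⊆ middle V c d ∪ blockers R := by
    intro j S hS
    rcases hD'mem j S hS with h | ⟨h, rfl⟩
    · exact Finset.mem_union_left _ (hDmid j S h)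
    · exact Finset.mem_union_right _ (q3 j h).mem
  have hlinj : Function.Injective (lift π) := by
    intro S S' h
    exact Finset.Subset.antisymm ((lift_subset hπ).1 (by rw [h])) ((lift_subset hπ).1 (by rw [h]))
  -- the set `G` is not a union of fibres
  have hGnot : ∀ S, G ≠ lift π S := by
    intro S h
    have h1 : S ⊆ T := (hG1 S).1 (by rw [h])
    have h2 : insert v T ⊆ S := (hG2 S).1 (by rw [h])
    exact hT (h1 (h2 (Finset.mem_insert_self v T)))
  -- lift
  set A : Fin m → Finset (Finset α) := fun j =>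
    if j = j₀ then insert G ((D' j).image (lift π)) else (D' j).image (lift π) with hA
  have hAmem : ∀ j, ∀ X ∈ A j, (∃ S ∈ D' j, X = lift π S) ∨ (j = j₀ ∧ X = G) := by
    intro j X hX
    simp only [hA] at hX
    split_ifs at hX with h
    · rcases Finset.mem_insert.1 hX with h1 | h1
      · exact Or.inr ⟨h, h1⟩
      · obtain ⟨S, h2, h3⟩ := Finset.mem_image.1 h1
        exact Or.inl ⟨S, h2, h3.symm⟩
    · obtain ⟨S, h2, h3⟩ := Finset.mem_image.1 hX
      exact Or.inl ⟨S, h2, h3.symm⟩
  have himgc : ∀ j, IsChain (· ⊆ ·) (((D' j).image (lift π) : Finset (Finset α)) :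
      Set (Finset α)) := by
    intro j X hX X' hX' hne
    simp only [Finset.coe_image, Set.mem_image, Finset.mem_coe] at hX hX'
    obtain ⟨S, hS, rfl⟩ := hX
    obtain ⟨S', hS', rfl⟩ := hX'
    have hne' : S ≠ S' := fun h => hne (by rw [h])
    rcases hD'chain j (by simpa using hS) (by simpa using hS') hne' with h | h
    · exact Or.inl ((lift_subset hπ).2 h)
    · exact Or.inr ((lift_subset hπ).2 h)
  apply hasCopy_of_chains A
  · intro j X hX
    rcases hAmem j X hX with ⟨S, hS, rfl⟩ | ⟨_, rfl⟩
    · exact Finset.mem_insert_of_mem (Finset.mem_image_of_mem _ (hD'F j hS))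
    · exact Finset.mem_insert_self _ _
  · intro j
    simp only [hA]
    split_ifs with h
    · rw [Finset.coe_insert]
      apply (himgc j).insert
      intro X hX _
      simp only [Finset.coe_image, Set.mem_image, Finset.mem_coe] at hX
      obtain ⟨S, hS, rfl⟩ := hX
      subst h
      rcases hGD0 S hS with h1 | h1
      · exact Or.inr ((hG1 S).2 h1)
      · exact Or.inl ((hG2 S).2 h1)
    · exact himgc j
  · intro j
    simp only [hA]
    split_ifs with h
    · subst h
      have hnot : G ∉ (D' j).image (lift π) := by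
        intro h
        obtain ⟨S, _, h1⟩ := Finset.mem_image.1 h
        exact hGnot S h1.symm
      rw [Finset.card_insert_of_notMem hnot, Finset.card_image_of_injective _ hlinj]
      simp only [hD', hj₀, if_false]
      rw [s2]
      exact hi j
    · rw [Finset.card_image_of_injective _ hlinj]
      exact hcard j h
  · intro j j' hne X hX X' hX' hsub
    rcases hAmem j X hX with ⟨S, hS, rfl⟩ | ⟨rfl, rfl⟩
    · rcases hAmem j' X' hX' with ⟨S', hS', rfl⟩ | ⟨rfl, rfl⟩
      · exact hcross j j' hne S hS S' hS' ((lift_subset hπ).1 hsub)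
      · exact (hGD j hne S hS).1 ((hG1 S).1 hsub)
    · rcases hAmem j' X' hX' with ⟨S', hS', rfl⟩ | ⟨h1, rfl⟩
      · exact (hGD j' hne.symm S' hS').2 ((hG2 S').1 hsub)
      · exact hne h1.symm

end

/-- the bounded saturated family, for a ground set mapping onto the small set `V` -/
theorem exists_bounded {α V : Type} [Fintype α] [DecidableEq α] [DecidableEq V] [Fintype V]
    {m : ℕ} {i : Fin m → ℕ} {π : α → V} (hπ : Function.Surjective π)
    {v : V} (hinj : ∀ a b, π a = π b → π a ≠ v → a = b)
    (r : Fin m → V) (hr : ∀ j j', r j = r j' → j = j') (hv : ∀ j, r j ≠ v)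
    {d : ℕ} (hpos : ∀ j, 1 ≤ i j) (hi : ∀ j, i j ≤ d + 1) (j₀ : Fin m) (h₀ : i j₀ = d + 1)
    (j₁ : Fin m) (h₁ : i j₁ < d + 1) (hV : 4 * m + d + 6 ≤ Fintype.card V) :
    ∃ F : Finset (Finset α), IsSaturated (Chains i) F ∧ #F ≤ 2 ^ Fintype.card V := by
  classical
  set K : Finset (Fin m) := univ.filter (fun j => i j = d + 1) with hK
  set J := K.erase j₀ with hJ
  set R := J.image r with hR
  have hj₀K : j₀ ∈ K := by simp [hK, h₀]
  have hj₁K : j₁ ∉ K := by
    simp only [hK, Finset.mem_filter, Finset.mem_univ, true_and]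
    omega
  have hJc : #J + 1 = #K := Finset.card_erase_add_one hj₀K
  have hRc : #R = #J := Finset.card_image_of_injective _ (fun a b h => hr a b h)
  have hKm : #K ≤ m := by
    have := Finset.card_le_univ K
    simpa using this
  have hcompl : #(Rᶜ) = Fintype.card V - #R := Finset.card_compl R
  have hfree : ¬ HasCopy (Chains i) ((middle V (m + 2) d ∪ blockers R).image (lift π)) := by
    intro h
    have h1 := hasCopy_of_image hπ h
    refine no_copy K (by omega) ?_ j₁ hj₁K (hpos j₁) h1
    intro j hj
    simp only [hK, Finset.mem_filter, Finset.mem_univ, true_and] at hj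
    exact hj.ge
  obtain ⟨F, hF1, hF2⟩ := exists_saturated (Chains i) _ hfree
  refine ⟨F, hF2, ?_⟩
  have hd1 : 1 ≤ d := by
    have := hpos j₁
    omega
  have hsub : F ⊆ (univ : Finset (Finset V)).image (lift π) := by
    intro G hG
    rcases lift_or_generic hinj hπ G with ⟨S, hS⟩ | ⟨T, hT, hG1, hG2⟩
    · rw [hS]
      exact Finset.mem_image_of_mem _ (Finset.mem_univ _)
    · exfalso
      have h1 : HasCopy (Chains i)
          (insert G ((middle V (m + 2) d ∪ blockers (J.image r)).image (lift π))) := by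
        refine hasCopy_of_generic hπ r hr hv hd1 j₀ J (by simp [hJ]) hi ?_ ?_ ?_ G T hT hG1 hG2
        · intro j hj hj'
          have h2 : j ∉ K := by
            intro h3
            exact hj (Finset.mem_erase.2 ⟨hj', h3⟩)
          simp only [hK, Finset.mem_filter, Finset.mem_univ, true_and] at h2
          have h3 := hi j
          omega
        · rw [← hR]
          omega
        · rw [← hR]
          omega
      apply hF2.1
      apply h1.mono
      intro X hX
      rcases Finset.mem_insert.1 hX with h2 | h2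
      · rw [h2]
        exact hG
      · exact hF1 h2
  refine (Finset.card_le_card hsub).trans ?_
  refine Finset.card_image_le.trans ?_
  rw [Finset.card_univ, Fintype.card_finset]

/-- **Main theorem.** For unequal lengths there are induced saturated families of bounded size. -/
theorem bounded_saturation {m : ℕ} (i : Fin m → ℕ) (hpos : ∀ j, 1 ≤ i j)
    (hne : ∃ a b, i a < i b) :
    ∃ C : ℕ, ∀ n : ℕ, ∃ F : Finset (Finset (Fin n)), IsSaturated (Chains i) F ∧ #F ≤ C := by
  classical
  obtain ⟨a, b, hab⟩ := hne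
  have hm : 0 < m := a.pos
  obtain ⟨j₀, -, hmax⟩ := Finset.exists_max_image (univ : Finset (Fin m)) i ⟨a, mem_univ a⟩
  obtain ⟨d, hd⟩ : ∃ d, i j₀ = d + 1 := ⟨i j₀ - 1, by have := hpos j₀; omega⟩
  have hi : ∀ j, i j ≤ d + 1 := fun j => hd ▸ hmax j (Finset.mem_univ j)
  have h₁ : i a < d + 1 := lt_of_lt_of_le hab (hi b)
  set N : ℕ := 4 * m + d + 5 with hN
  refine ⟨2 ^ (N + 1), ?_⟩
  intro n
  by_cases hn : N + 1 ≤ n
  · -- the projection
    let π : Fin n → Fin (N + 1) := fun x => ⟨min x N, by omega⟩
    have hπ : Function.Surjective π := by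
      intro y
      refine ⟨⟨y, by omega⟩, ?_⟩
      apply Fin.ext
      simp only [π]
      omega
    have hinj : ∀ x y, π x = π y → π x ≠ Fin.last N → x = y := by
      intro x y h1 h2
      have h3 : min (x : ℕ) N = min (y : ℕ) N := by
        have := congrArg Fin.val h1
        simpa [π] using this
      have h4 : min (x : ℕ) N ≠ N := by
        intro h
        apply h2
        apply Fin.ext
        simpa [π] using h
      apply Fin.ext
      omega
    obtain ⟨F, h1, h2⟩ := exists_bounded (i := i) hπ (v := Fin.last N) hinj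
      (fun j => (⟨j, by omega⟩ : Fin (N + 1)))
      (fun j j' h => by
        have := congrArg Fin.val h
        exact Fin.ext (by simpa using this))
      (fun j h => by
        have := congrArg Fin.val h
        simp only [Fin.val_last] at this
        omega) hpos hi j₀ hd a h₁ (by rw [Fintype.card_fin])
    exact ⟨F, h1, by simpa using h2⟩
  · obtain ⟨F, -, hF⟩ := exists_saturated (Chains i) (∅ : Finset (Finset (Fin n))) (by
      rintro ⟨b', -, h2, -⟩
      have := h2 ⟨a, ⟨0, hpos a⟩⟩
      simp at this)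
    refine ⟨F, hF, ?_⟩
    have h1 : #F ≤ 2 ^ n := by
      have := Finset.card_le_univ F
      rwa [Fintype.card_finset, Fintype.card_fin] at this
    exact h1.trans (Nat.pow_le_pow_right (by norm_num) (by omega))

end Pool.Agent.Q326.Sat
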