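import Mathlib

/-!
# Induced saturation for posets in the Boolean lattice: definitions

`HasCopy P F`: the family `F` contains an induced copy of the poset `P`.
`IsSaturated P F`: the family `F` is induced `P`-saturated.
`satStar n P`: the induced saturation number `sat*(n,P)`.
`Chains i`: the disjoint union of chains `C_{i_1} + ⋯ + C_{i_m}`.
-/

namespace Pool.Agent.Q326.Sat

open Finset

/-- The family `F` of sets contains an (induced) copy of `P`: there is an injection `b` of `P` into
`F` with `p ≤ q` if and only if `b p ⊆ b q`. -/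
def HasCopy (P : Type) [LE P] {α : Type} (F : Finset (Finset α)) : Prop :=
  ∃ b : P → Finset α, Function.Injective b ∧ (∀ p, b p ∈ F) ∧ ∀ p q, p ≤ q ↔ b p ⊆ b q

/-- The family `F` is induced `P`-saturated: it contains no induced copy of `P`, but adding any
further set of the ground set creates one. -/
def IsSaturated (P : Type) [LE P] {α : Type} [DecidableEq α] (F : Finset (Finset α)) : Prop :=
  ¬ HasCopy P F ∧ ∀ G : Finset α, G ∉ F → HasCopy P (insert G F)

/-- The induced saturation number `sat*(n,P)`: the least size of an induced `P`-saturated family of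
subsets of an `n`-element set. -/
noncomputable def satStar (n : ℕ) (P : Type) [LE P] : ℕ :=
  sInf {t | ∃ F : Finset (Finset (Fin n)), IsSaturated P F ∧ F.card = t}

/-- The disjoint union `C_{i_1} + ⋯ + C_{i_m}` of chains, the `j`-th chain having `i j` elements.
It carries the order of Mathlib on `Sigma` types: `⟨j, p⟩ ≤ ⟨j', q⟩` if and only if `j = j'` and
`p ≤ q`, so that elements of different chains are incomparable. -/
abbrev Chains {m : ℕ} (i : Fin m → ℕ) : Type := Σ j : Fin m, Fin (i j)

theorem chains_le_iff {m : ℕ} {i : Fin m → ℕ} (a b : Chains i) :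
    a ≤ b ↔ a.1 = b.1 ∧ (a.2 : ℕ) ≤ b.2 := by
  obtain ⟨j, p⟩ := a
  obtain ⟨j', q⟩ := b
  constructor
  · intro h
    cases h with
    | fiber _ _ _ h => exact ⟨rfl, h⟩
  · rintro ⟨h1, h2⟩
    simp only at h1
    subst h1
    exact Sigma.LE.fiber _ _ _ h2

/-- a chain of at least `k` sets contains an embedded copy of `Fin k` -/
theorem chain_embed {α : Type} [DecidableEq α] {A : Finset (Finset α)}
    (hA : IsChain (· ⊆ ·) (A : Set (Finset α))) {k : ℕ} (hk : k ≤ #A) :
    ∃ b : Fin k → Finset α, (∀ p, b p ∈ A) ∧ ∀ p q : Fin k, (p : ℕ) ≤ q ↔ b p ⊆ b q := by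
  have hcmp : ∀ S ∈ A, ∀ S' ∈ A, #S ≤ #S' → S ⊆ S' := by
    intro S hS S' hS' h
    by_cases e : S = S'
    · rw [e]
    · rcases hA (by simpa using hS) (by simpa using hS') e with h1 | h1
      · exact h1
      · exact (Finset.eq_of_subset_of_card_le h1 h).symm ▸ subset_rfl
  have hinj : Set.InjOn (fun S : Finset α => #S) (A : Set (Finset α)) := by
    intro S hS S' hS' h
    simp only at h
    exact Finset.Subset.antisymm (hcmp S (by simpa using hS) S' (by simpa using hS') h.le)
      (hcmp S' (by simpa using hS') S (by simpa using hS) h.ge)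
  set N : Finset ℕ := A.image (fun S => #S) with hN
  have hNc : #N = #A := Finset.card_image_of_injOn hinj
  let e := N.orderEmbOfFin rfl
  have hk' : k ≤ #N := by omega
  have hex : ∀ p : Fin k, ∃ S ∈ A, #S = e (Fin.castLE hk' p) := by
    intro p
    have h1 : e (Fin.castLE hk' p) ∈ N := Finset.orderEmbOfFin_mem N rfl _
    exact Finset.mem_image.1 h1
  choose b hb1 hb2 using hex
  refine ⟨b, hb1, ?_⟩
  intro p q
  constructor
  · intro h
    apply hcmp _ (hb1 p) _ (hb1 q)
    rw [hb2 p, hb2 q]
    exact e.monotone (by simpa using h)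
  · intro h
    have h1 : #(b p) ≤ #(b q) := Finset.card_le_card h
    rw [hb2 p, hb2 q] at h1
    have h2 := (e.le_iff_le).1 h1
    simpa using h2

/-- a system of pairwise incomparable chains of the right lengths gives a copy of the disjoint
union of chains -/
theorem hasCopy_of_chains {α : Type} [DecidableEq α] {m : ℕ} {i : Fin m → ℕ}
    {F : Finset (Finset α)} (A : Fin m → Finset (Finset α)) (hA : ∀ j, A j ⊆ F)
    (hchain : ∀ j, IsChain (· ⊆ ·) (A j : Set (Finset α)))
    (hcard : ∀ j, i j ≤ #(A j))
    (hcross : ∀ j j', j ≠ j' → ∀ S ∈ A j, ∀ S' ∈ A j', ¬ S ⊆ S') :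
    HasCopy (Chains i) F := by
  have hex : ∀ j, ∃ b : Fin (i j) → Finset α, (∀ p, b p ∈ A j) ∧
      ∀ p q : Fin (i j), (p : ℕ) ≤ q ↔ b p ⊆ b q := fun j => chain_embed (hchain j) (hcard j)
  choose b hb1 hb2 using hex
  have key : ∀ p q : Chains i, p ≤ q ↔ b p.1 p.2 ⊆ b q.1 q.2 := by
    rintro ⟨j, p⟩ ⟨j', q⟩
    rw [chains_le_iff]
    simp only
    constructor
    · rintro ⟨h1, h2⟩
      subst h1
      exact (hb2 j p q).1 h2
    · intro h
      by_cases e : j = j'
      · subst e
        exact ⟨rfl, (hb2 j p q).2 h⟩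
      · exact absurd h (hcross j j' e _ (hb1 j p) _ (hb1 j' q))
  refine ⟨fun p => b p.1 p.2, ?_, fun p => hA _ (hb1 p.1 p.2), key⟩
  intro p q h
  simp only at h
  have h1 : p ≤ q := (key p q).2 (by rw [h])
  have h2 : q ≤ p := (key q p).2 (by rw [h])
  exact le_antisymm h1 h2

/-- every family without a copy of `P` extends to an induced `P`-saturated family -/
theorem exists_saturated (P : Type) [LE P] {α : Type} [Fintype α] [DecidableEq α]
    (F₀ : Finset (Finset α)) (h : ¬ HasCopy P F₀) : ∃ F, F₀ ⊆ F ∧ IsSaturated P F := by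
  classical
  obtain ⟨F, hF, hmax⟩ := Finset.exists_max_image
    ((univ : Finset (Finset (Finset α))).filter (fun F => F₀ ⊆ F ∧ ¬ HasCopy P F))
    (fun F => #F) ⟨F₀, by simp [h]⟩
  simp only [Finset.mem_filter, Finset.mem_univ, true_and] at hF hmax
  refine ⟨F, hF.1, hF.2, ?_⟩
  intro G hG
  by_contra hcon
  have h1 := hmax (insert G F) ⟨hF.1.trans (Finset.subset_insert _ _), hcon⟩
  rw [Finset.card_insert_of_notMem hG] at h1
  omega

end Pool.Agent.Q326.Sat
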