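import Pool.Agent.Q326.Sat.Bounded

/-!
# Linear induced saturated families for `m C_k`

The ground set is `α`, linearly ordered, `M ⊆ α` a set of bounded size, `R ⊆ M` of size `m - 1`.
The strands are the sets `insert x {b ∉ M | b < g}`, `x ∈ R`; `lay` is a family of linear size with
a strictly monotone rank taking `k - 1` values.
-/

namespace Pool.Agent.Q326.Sat

open Finset

variable {α : Type} [LinearOrder α] [Fintype α]

/-- the rank of a number of elements outside `M` -/
def rkOut (N q : ℕ) : ℕ :=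
  (if 1 ≤ q then 1 else 0) + (if N ≤ q + 1 then 1 else 0) + (if N ≤ q then 1 else 0)

/-- the rank of a set -/
def rk (M S : Finset α) : ℕ := #(S ∩ M) + rkOut (#Mᶜ) (#(S \ M))

/-- the layers -/
def lay (M : Finset α) (c d : ℕ) : Finset (Finset α) :=
  (univ : Finset (Finset α)).filter (fun S =>
    (#(S \ M) = 0 ∨ #(S \ M) = 1 ∨ #(S \ M) + 1 = #Mᶜ ∨ #(S \ M) = #Mᶜ) ∧
      c ≤ rk M S ∧ rk M S < c + d)

/-- the initial segments of the complement of `M` -/
def seg (M : Finset α) (g : α) : Finset α := (Mᶜ).filter (fun b => b < g)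

/-- the strands -/
def strands (M R : Finset α) : Finset (Finset α) :=
  (R ×ˢ (univ : Finset α)).image (fun p => insert p.1 (seg M p.2))

theorem mem_lay {M : Finset α} {c d : ℕ} {S : Finset α} : S ∈ lay M c d ↔
    (#(S \ M) = 0 ∨ #(S \ M) = 1 ∨ #(S \ M) + 1 = #Mᶜ ∨ #(S \ M) = #Mᶜ) ∧
      c ≤ rk M S ∧ rk M S < c + d := by
  simp [lay]

theorem mem_strands {M R S : Finset α} :
    S ∈ strands M R ↔ ∃ x ∈ R, ∃ g, S = insert x (seg M g) := by
  unfold strands
  simp only [Finset.mem_image, Finset.mem_product, Finset.mem_univ, and_true, Prod.exists]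
  constructor
  · rintro ⟨x, g, h1, h2⟩
    exact ⟨x, h1, g, h2.symm⟩
  · rintro ⟨x, h1, g, h2⟩
    exact ⟨x, g, h1, h2.symm⟩

/-- the rank is strictly monotone on the layers -/
theorem rk_lt {M : Finset α} (hM : 3 ≤ #Mᶜ) {c d : ℕ} {S S' : Finset α} (hS : S ∈ lay M c d)
    (hS' : S' ∈ lay M c d) (h : S ⊂ S') : rk M S < rk M S' := by
  rw [mem_lay] at hS hS'
  have h1 : #(S ∩ M) ≤ #(S' ∩ M) :=
    Finset.card_le_card (Finset.inter_subset_inter_right h.1)
  have h2 : #(S \ M) ≤ #(S' \ M) := Finset.card_le_card (Finset.sdiff_subset_sdiff h.1 subset_rfl)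
  have h3 : #(S ∩ M) + #(S \ M) = #S := Finset.card_inter_add_card_sdiff S M
  have h4 : #(S' ∩ M) + #(S' \ M) = #S' := Finset.card_inter_add_card_sdiff S' M
  have h5 : #S < #S' := Finset.card_lt_card h
  obtain ⟨hS1, -, -⟩ := hS
  obtain ⟨hS1', -, -⟩ := hS'
  unfold rk rkOut
  split_ifs <;> omega

/-- a chain of `d + 1` sets in `lay ∪ strands` contains a member of a strand -/
theorem exists_strand {M R : Finset α} (hM : 3 ≤ #Mᶜ) {c d : ℕ} {k : ℕ} (hk : d + 1 ≤ k)
    (b : Fin k → Finset α) (hb : ∀ p, b p ∈ lay M c d ∪ strands M R)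
    (hmono : ∀ p q : Fin k, (p : ℕ) ≤ q ↔ b p ⊆ b q) : ∃ p, b p ∈ strands M R := by
  by_contra hcon
  push Not at hcon
  have hlay : ∀ p, b p ∈ lay M c d := by
    intro p
    rcases Finset.mem_union.1 (hb p) with h | h
    · exact h
    · exact absurd h (hcon p)
  have hlt : ∀ p q : Fin k, (p : ℕ) < q → rk M (b p) < rk M (b q) := by
    intro p q h
    apply rk_lt hM (hlay p) (hlay q)
    refine ⟨(hmono p q).1 h.le, ?_⟩
    intro h1
    have := (hmono q p).2 h1
    omega
  have hinj : Function.Injective (fun p => rk M (b p)) := by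
    intro p q h
    simp only at h
    rcases Nat.lt_trichotomy (p : ℕ) q with h1 | h1 | h1
    · have := hlt p q h1
      omega
    · exact Fin.ext h1
    · have := hlt q p h1
      omega
  have h1 : #((univ : Finset (Fin k)).image (fun p => rk M (b p))) = k := by
    rw [Finset.card_image_of_injective _ hinj, Finset.card_univ, Fintype.card_fin]
  have h2 : (univ : Finset (Fin k)).image (fun p => rk M (b p)) ⊆ Finset.Ico c (c + d) := by
    intro x hx
    obtain ⟨p, _, rfl⟩ := Finset.mem_image.1 hx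
    rw [Finset.mem_Ico]
    exact (mem_lay.1 (hlay p)).2
  have h3 := Finset.card_le_card h2
  rw [h1, Nat.card_Ico] at h3
  omega

/-- no `m C_k` in `lay ∪ strands` when `R` has `m - 1` elements -/
theorem no_copy_equal {m : ℕ} {i : Fin m → ℕ} {M R : Finset α} (hM : 3 ≤ #Mᶜ) {c d : ℕ}
    (hR : #R < m) (hi : ∀ j, d + 1 ≤ i j) :
    ¬ HasCopy (Chains i) (lay M c d ∪ strands M R) := by
  rintro ⟨b, -, hbF, hb⟩
  have hbj : ∀ j (p q : Fin (i j)), (p : ℕ) ≤ q ↔ b ⟨j, p⟩ ⊆ b ⟨j, q⟩ := by
    intro j p q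
    rw [← hb, chains_le_iff]
    simp
  have hcmp : ∀ j (p : Fin (i j)) j' (q : Fin (i j')), b ⟨j, p⟩ ⊆ b ⟨j', q⟩ → j = j' := by
    intro j p j' q h
    rw [← hb, chains_le_iff] at h
    exact h.1
  have hex : ∀ j : Fin m, ∃ p : Fin (i j), b ⟨j, p⟩ ∈ strands M R := by
    intro j
    exact exists_strand hM (hi j) (fun p => b ⟨j, p⟩) (fun p => hbF _) (hbj j)
  choose p hp using hex
  have hex2 : ∀ j : Fin m, ∃ x ∈ R, ∃ g, b ⟨j, p j⟩ = insert x (seg M g) := fun j =>
    mem_strands.1 (hp j)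
  choose x hx g hg using hex2
  obtain ⟨j, -, j', -, hne, hxx⟩ := Finset.exists_ne_map_eq_of_card_lt_of_maps_to
    (s := (univ : Finset (Fin m))) (t := R) (f := x) (by simpa using hR) (fun j _ => hx j)
  have hseg : ∀ g g' : α, g ≤ g' → seg M g ⊆ seg M g' := by
    intro g g' h y hy
    simp only [seg, Finset.mem_filter] at hy ⊢
    exact ⟨hy.1, lt_of_lt_of_le hy.2 h⟩
  rcases le_total (g j) (g j') with h | h
  · exact hne (hcmp j (p j) j' (p j') (by
      rw [hg, hg, hxx]
      exact Finset.insert_subset_insert _ (hseg _ _ h)))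
  · exact hne (hcmp j' (p j') j (p j) (by
      rw [hg, hg, hxx]
      exact Finset.insert_subset_insert _ (hseg _ _ h))).symm

/-- the special sets -/
def Special (M G : Finset α) : Prop :=
  #(G \ M) = 0 ∨ #(G \ M) = 1 ∨ #(G \ M) + 1 = #Mᶜ ∨ #(G \ M) = #Mᶜ ∨ ∃ g, G \ M = seg M g

/-- a set that is not special has an inversion -/
theorem exists_inversion {M G : Finset α} (h : ¬ Special M G) :
    ∃ y g : α, y ∉ M ∧ g ∉ M ∧ y < g ∧ y ∉ G ∧ g ∈ G := by
  unfold Special at h
  push Not at h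
  obtain ⟨h0, h1, h2, h3, h4⟩ := h
  have hsub : G \ M ⊆ Mᶜ := by
    intro x hx
    rw [Finset.mem_sdiff] at hx
    exact Finset.mem_compl.2 hx.2
  have hne : (Mᶜ \ G).Nonempty := by
    by_contra hcon
    rw [Finset.not_nonempty_iff_eq_empty, Finset.sdiff_eq_empty_iff_subset] at hcon
    apply h3
    congr 1
    apply Finset.Subset.antisymm hsub
    intro x hx
    exact Finset.mem_sdiff.2 ⟨hcon hx, Finset.mem_compl.1 hx⟩
  obtain ⟨y, hy, hmin⟩ := Finset.exists_min_image (Mᶜ \ G) id hne
  rw [Finset.mem_sdiff, Finset.mem_compl] at hy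
  by_contra hcon
  push Not at hcon
  apply h4 y
  ext x
  simp only [seg, Finset.mem_sdiff, Finset.mem_filter, Finset.mem_compl]
  constructor
  · rintro ⟨hx1, hx2⟩
    refine ⟨hx2, ?_⟩
    by_contra hlt
    rcases lt_or_eq_of_le (not_lt.1 hlt) with h5 | h5
    · exact hcon y x hy.1 hx2 h5 hy.2 hx1
    · exact hy.2 (h5 ▸ hx1)
  · rintro ⟨hx1, hx2⟩
    refine ⟨?_, hx1⟩
    by_contra hxG
    have := hmin x (by simp [hx1, hxG])
    simp only [id] at this
    exact absurd hx2 (not_lt.2 this)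

/-- the chain through a set `G` with an inversion `y < g` -/
theorem exists_main_chain {M G : Finset α} {y g : α} (hy : y ∉ M) (hg : g ∉ M) (hyg : y ≠ g)
    (hyG : y ∉ G) (hgG : g ∈ G) (hM : 3 ≤ #Mᶜ) {c d : ℕ} (hc : 2 ≤ c) (hd : c + d ≤ #M + 3) :
    ∃ D : Finset (Finset α), IsChain (· ⊆ ·) (D : Set (Finset α)) ∧ #D = d ∧
      ∀ S ∈ D, S ∈ lay M c d ∧ y ∉ S ∧ g ∈ S ∧ (S ⊆ G ∨ G ⊆ S) := by
  set T := G ∩ M with hT
  have hTM : T ⊆ M := Finset.inter_subset_right
  have hTG : T ⊆ G := Finset.inter_subset_left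
  have hgT : g ∉ T := fun h => hg (hTM h)
  -- the two kinds of sets
  set lo : Finset α → Finset α := fun S => insert g S with hlo
  set up : Finset α → Finset α := fun S => S ∪ (Mᶜ).erase y with hup
  have hyc : y ∈ Mᶜ := Finset.mem_compl.2 hy
  have hgc : g ∈ Mᶜ := Finset.mem_compl.2 hg
  have hloinj : ∀ S S', S ⊆ M → S' ⊆ M → lo S = lo S' → S = S' := by
    intro S S' h1 h2 h
    have h3 : (lo S).erase g = (lo S').erase g := by rw [h]
    simp only [hlo] at h3
    rwa [Finset.erase_insert (fun h => hg (h1 h)), Finset.erase_insert (fun h => hg (h2 h))] at h3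
  have hupM : ∀ S, S ⊆ M → up S ∩ M = S := by
    intro S h
    ext x
    simp only [hup, Finset.mem_inter, Finset.mem_union, Finset.mem_erase, Finset.mem_compl]
    constructor
    · rintro ⟨h1 | h1, h2⟩
      · exact h1
      · exact absurd h2 h1.2
    · intro h1
      exact ⟨Or.inl h1, h h1⟩
  have hupinj : ∀ S S', S ⊆ M → S' ⊆ M → up S = up S' → S = S' := by
    intro S S' h1 h2 h
    rw [← hupM S h1, ← hupM S' h2, h]
  have hloM : ∀ S, S ⊆ M → lo S ∩ M = S := by
    intro S h
    ext x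
    simp only [hlo, Finset.mem_inter, Finset.mem_insert]
    constructor
    · rintro ⟨h1 | h1, h2⟩
      · subst h1
        exact absurd h2 hg
      · exact h1
    · intro h1
      exact ⟨Or.inr h1, h h1⟩
  have hloO : ∀ S, S ⊆ M → lo S \ M = {g} := by
    intro S h
    ext x
    simp only [hlo, Finset.mem_sdiff, Finset.mem_insert, Finset.mem_singleton]
    constructor
    · rintro ⟨h1 | h1, h2⟩
      · exact h1
      · exact absurd (h h1) h2
    · rintro rfl
      exact ⟨Or.inl rfl, hg⟩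
  have hupO : ∀ S, S ⊆ M → up S \ M = (Mᶜ).erase y := by
    intro S h
    ext x
    simp only [hup, Finset.mem_sdiff, Finset.mem_union, Finset.mem_erase, Finset.mem_compl]
    constructor
    · rintro ⟨h1 | h1, h2⟩
      · exact absurd (h h1) h2
      · exact h1
    · intro h1
      exact ⟨Or.inr h1, h1.2⟩
  have hcerase : #((Mᶜ).erase y) + 1 = #Mᶜ := Finset.card_erase_add_one hyc
  have hlork : ∀ S, S ⊆ M → rk M (lo S) = #S + 1 := by
    intro S h
    unfold rk rkOut
    rw [hloM S h, hloO S h, Finset.card_singleton]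
    split_ifs <;> omega
  have huprk : ∀ S, S ⊆ M → rk M (up S) = #S + 2 := by
    intro S h
    unfold rk rkOut
    rw [hupM S h, hupO S h]
    split_ifs <;> omega
  have hlolay : ∀ S, S ⊆ M → c ≤ #S + 1 → #S + 1 < c + d → lo S ∈ lay M c d := by
    intro S h h1 h2
    rw [mem_lay, hlork S h, hloO S h, Finset.card_singleton]
    exact ⟨Or.inr (Or.inl rfl), h1, h2⟩
  have huplay : ∀ S, S ⊆ M → c ≤ #S + 2 → #S + 2 < c + d → up S ∈ lay M c d := by
    intro S h h1 h2
    rw [mem_lay, huprk S h, hupO S h]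
    exact ⟨Or.inr (Or.inr (Or.inl hcerase)), h1, h2⟩
  have hloG : ∀ S, S ⊆ T → lo S ⊆ G := by
    intro S h
    exact Finset.insert_subset hgG (h.trans hTG)
  have hupG : ∀ S, T ⊆ S → G ⊆ up S := by
    intro S h x hx
    simp only [hup, Finset.mem_union, Finset.mem_erase, Finset.mem_compl]
    by_cases hxM : x ∈ M
    · exact Or.inl (h (Finset.mem_inter.2 ⟨hx, hxM⟩))
    · refine Or.inr ⟨?_, hxM⟩
      rintro rfl
      exact hyG hx
  have hloy : ∀ S, S ⊆ M → y ∉ lo S ∧ g ∈ lo S := by
    intro S h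
    simp only [hlo]
    refine ⟨?_, Finset.mem_insert_self _ _⟩
    rw [Finset.mem_insert]
    rintro (h1 | h1)
    · exact hyg h1
    · exact hy (h h1)
  have hupy : ∀ S, S ⊆ M → y ∉ up S ∧ g ∈ up S := by
    intro S h
    simp only [hup, Finset.mem_union, Finset.mem_erase, Finset.mem_compl]
    refine ⟨?_, Or.inr ⟨hyg.symm, hg⟩⟩
    rintro (h1 | h1)
    · exact hy (h h1)
    · exact h1.1 rfl
  have hlochain : ∀ D : Finset (Finset α), IsChain (· ⊆ ·) (D : Set (Finset α)) →
      IsChain (· ⊆ ·) ((D.image lo : Finset (Finset α)) : Set (Finset α)) := by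
    intro D hD X hX X' hX' hne
    simp only [Finset.coe_image, Set.mem_image, Finset.mem_coe] at hX hX'
    obtain ⟨S, hS, rfl⟩ := hX
    obtain ⟨S', hS', rfl⟩ := hX'
    have hne' : S ≠ S' := fun h => hne (by rw [h])
    rcases hD (by simpa using hS) (by simpa using hS') hne' with h | h
    · exact Or.inl (Finset.insert_subset_insert _ h)
    · exact Or.inr (Finset.insert_subset_insert _ h)
  have hupchain : ∀ D : Finset (Finset α), IsChain (· ⊆ ·) (D : Set (Finset α)) →
      IsChain (· ⊆ ·) ((D.image up : Finset (Finset α)) : Set (Finset α)) := by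
    intro D hD X hX X' hX' hne
    simp only [Finset.coe_image, Set.mem_image, Finset.mem_coe] at hX hX'
    obtain ⟨S, hS, rfl⟩ := hX
    obtain ⟨S', hS', rfl⟩ := hX'
    have hne' : S ≠ S' := fun h => hne (by rw [h])
    rcases hD (by simpa using hS) (by simpa using hS') hne' with h | h
    · exact Or.inl (Finset.union_subset_union h subset_rfl)
    · exact Or.inr (Finset.union_subset_union h subset_rfl)
  have hcardlo : ∀ D : Finset (Finset α), (∀ S ∈ D, S ⊆ M) → #(D.image lo) = #D := by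
    intro D hD
    apply Finset.card_image_of_injOn
    intro S hS S' hS' h
    exact hloinj S S' (hD S (by simpa using hS)) (hD S' (by simpa using hS')) h
  have hcardup : ∀ D : Finset (Finset α), (∀ S ∈ D, S ⊆ M) → #(D.image up) = #D := by
    intro D hD
    apply Finset.card_image_of_injOn
    intro S hS S' hS' h
    exact hupinj S S' (hD S (by simpa using hS)) (hD S' (by simpa using hS')) h
  by_cases h1 : #T + 2 ≤ c
  · -- all sets above `G`
    obtain ⟨D, e1, e2, e3⟩ := exists_flag d T M (c - 2) hTM (by omega) (by omega)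
    refine ⟨D.image up, hupchain D e1, ?_, ?_⟩
    · rw [hcardup D (fun S hS => (e3 S hS).2.1), e2]
    · intro X hX
      obtain ⟨S, hS, rfl⟩ := Finset.mem_image.1 hX
      obtain ⟨q1, q2, q3, q4⟩ := e3 S hS
      exact ⟨huplay S q2 (by omega) (by omega), (hupy S q2).1, (hupy S q2).2,
        Or.inr (hupG S q1)⟩
  · by_cases h2 : c + d ≤ #T + 2
    · obtain ⟨D, e1, e2, e3⟩ := exists_flag d ∅ T (c - 1) (Finset.empty_subset _) (by simp)
        (by omega)
      refine ⟨D.image lo, hlochain D e1, ?_, ?_⟩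
      · rw [hcardlo D (fun S hS => (e3 S hS).2.1.trans hTM), e2]
      · intro X hX
        obtain ⟨S, hS, rfl⟩ := Finset.mem_image.1 hX
        obtain ⟨q1, q2, q3, q4⟩ := e3 S hS
        have q5 := q2.trans hTM
        exact ⟨hlolay S q5 (by omega) (by omega), (hloy S q5).1, (hloy S q5).2,
          Or.inl (hloG S q2)⟩
    · obtain ⟨D1, e1, e2, e3⟩ := exists_flag (#T + 2 - c) ∅ T (c - 1) (Finset.empty_subset _)
        (by simp) (by omega)
      obtain ⟨D2, f1, f2, f3⟩ := exists_flag (c + d - (#T + 2)) T M (#T) hTM le_rfl (by omega)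
      have hD1M : ∀ S ∈ D1, S ⊆ M := fun S hS => (e3 S hS).2.1.trans hTM
      have hD2M : ∀ S ∈ D2, S ⊆ M := fun S hS => (f3 S hS).2.1
      have hlu : ∀ S ∈ D1, ∀ S' ∈ D2, lo S ⊆ up S' := by
        intro S hS S' hS'
        exact (hloG S (e3 S hS).2.1).trans (hupG S' (f3 S' hS').1)
      refine ⟨D1.image lo ∪ D2.image up, ?_, ?_, ?_⟩
      · intro X hX X' hX' hne
        simp only [Finset.coe_union, Finset.coe_image, Set.mem_union, Set.mem_image,
          Finset.mem_coe] at hX hX'
        rcases hX with ⟨S, hS, rfl⟩ | ⟨S, hS, rfl⟩ <;>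
          rcases hX' with ⟨S', hS', rfl⟩ | ⟨S', hS', rfl⟩
        · exact hlochain D1 e1 (by simpa using ⟨S, hS, rfl⟩) (by simpa using ⟨S', hS', rfl⟩) hne
        · exact Or.inl (hlu S hS S' hS')
        · exact Or.inr (hlu S' hS' S hS)
        · exact hupchain D2 f1 (by simpa using ⟨S, hS, rfl⟩) (by simpa using ⟨S', hS', rfl⟩) hne
      · have hdisj : Disjoint (D1.image lo) (D2.image up) := by
          rw [Finset.disjoint_left]
          intro X hX hX'
          obtain ⟨S, hS, rfl⟩ := Finset.mem_image.1 hX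
          obtain ⟨S', hS', h⟩ := Finset.mem_image.1 hX'
          have h3 : lo S \ M = up S' \ M := by rw [h]
          rw [hloO S (hD1M S hS), hupO S' (hD2M S' hS')] at h3
          have h4 : #({g} : Finset α) = #((Mᶜ).erase y) := by rw [h3]
          rw [Finset.card_singleton] at h4
          omega
        rw [Finset.card_union_of_disjoint hdisj, hcardlo D1 hD1M, hcardup D2 hD2M, e2, f2]
        omega
      · intro X hX
        rcases Finset.mem_union.1 hX with h | h
        · obtain ⟨S, hS, rfl⟩ := Finset.mem_image.1 h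
          obtain ⟨q1, q2, q3, q4⟩ := e3 S hS
          have q5 := q2.trans hTM
          exact ⟨hlolay S q5 (by omega) (by omega), (hloy S q5).1, (hloy S q5).2,
            Or.inl (hloG S q2)⟩
        · obtain ⟨S, hS, rfl⟩ := Finset.mem_image.1 h
          obtain ⟨q1, q2, q3, q4⟩ := f3 S hS
          exact ⟨huplay S q2 (by omega) (by omega), (hupy S q2).1, (hupy S q2).2,
            Or.inr (hupG S q1)⟩

end Pool.Agent.Q326.Sat
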