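import Pool.Agent.Q326.Sat.Defs

/-!
# Flags of sets and pairwise incomparable chains of middle-sized sets
-/

namespace Pool.Agent.Q326.Sat

open Finset

variable {V : Type} [DecidableEq V]

/-- a chain of `d` sets of consecutive sizes `a, …, a + d - 1` between `A` and `B` -/
theorem exists_flag (d : ℕ) : ∀ (A B : Finset V) (a : ℕ), A ⊆ B → #A ≤ a → a + d ≤ #B + 1 →
    ∃ D : Finset (Finset V), IsChain (· ⊆ ·) (D : Set (Finset V)) ∧ #D = d ∧
      ∀ S ∈ D, A ⊆ S ∧ S ⊆ B ∧ a ≤ #S ∧ #S < a + d := by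
  induction d with
  | zero =>
    intro A B a _ _ _
    exact ⟨∅, by simp, by simp, by simp⟩
  | succ d ih =>
    intro A B a hAB hA hB
    obtain ⟨A', h1, h2, h3⟩ := Finset.exists_subsuperset_card_eq hAB hA (by omega)
    obtain ⟨D, hc, hcard, hD⟩ := ih A' B (a + 1) h2 (by omega) (by omega)
    have hnot : A' ∉ D := by
      intro h
      have := (hD A' h).2.2.1
      omega
    refine ⟨insert A' D, ?_, ?_, ?_⟩
    · rw [Finset.coe_insert]
      apply hc.insert
      intro S hS _
      exact Or.inl (hD S (by simpa using hS)).1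
    · rw [Finset.card_insert_of_notMem hnot, hcard]
    · intro S hS
      rcases Finset.mem_insert.1 hS with h | h
      · subst h
        exact ⟨h1, h2, by omega, by omega⟩
      · obtain ⟨q1, q2, q3, q4⟩ := hD S h
        exact ⟨h1.trans q1, q2, by omega, by omega⟩

variable [Fintype V]

/-- a flag running through `T` and `insert v T`, with constant trace on `R` -/
theorem exists_gflag (T R : Finset V) (v : V) (hT : v ∉ T) (hR : v ∉ R) (c d : ℕ) (hc : #R ≤ c)
    (hd : c + d ≤ #(Rᶜ) + 1) :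
    ∃ D : Finset (Finset V), IsChain (· ⊆ ·) (D : Set (Finset V)) ∧ #D = d ∧
      ∀ S ∈ D, S ∩ R = T ∩ R ∧ c ≤ #S ∧ #S < c + d ∧ (S ⊆ T ∨ insert v T ⊆ S) := by
  have hsub : T ∩ R ⊆ T := Finset.inter_subset_left
  have hτ : #(T ∩ R) ≤ c := (Finset.card_le_card Finset.inter_subset_right).trans hc
  set B : Finset V := (R \ T)ᶜ with hB
  have hBR : Rᶜ ⊆ B := by
    intro x hx
    simp only [hB, Finset.mem_compl, Finset.mem_sdiff] at hx ⊢
    tauto
  have hBc : #(Rᶜ) ≤ #B := Finset.card_le_card hBR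
  have hTB : insert v T ⊆ B := by
    intro x hx
    rw [Finset.mem_insert] at hx
    simp only [hB, Finset.mem_compl, Finset.mem_sdiff]
    rcases hx with h | h
    · subst h
      tauto
    · tauto
  have hlow : ∀ S, T ∩ R ⊆ S → S ⊆ T → S ∩ R = T ∩ R := by
    intro S h1 h2
    ext x
    simp only [Finset.mem_inter]
    constructor
    · rintro ⟨h3, h4⟩
      exact ⟨h2 h3, h4⟩
    · rintro ⟨h3, h4⟩
      exact ⟨h1 (Finset.mem_inter.2 ⟨h3, h4⟩), h4⟩
  have hupp : ∀ S, insert v T ⊆ S → S ⊆ B → S ∩ R = T ∩ R := by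
    intro S h1 h2
    ext x
    simp only [Finset.mem_inter]
    constructor
    · rintro ⟨h3, h4⟩
      have h5 := h2 h3
      simp only [hB, Finset.mem_compl, Finset.mem_sdiff] at h5
      exact ⟨by tauto, h4⟩
    · rintro ⟨h3, h4⟩
      exact ⟨h1 (Finset.mem_insert_of_mem h3), h4⟩
  have hcardi : #(insert v T) = #T + 1 := Finset.card_insert_of_notMem hT
  by_cases h1 : #T + 1 ≤ c
  · obtain ⟨D, hch, hcard, hD⟩ := exists_flag d (insert v T) B c hTB (by omega) (by omega)
    refine ⟨D, hch, hcard, ?_⟩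
    intro S hS
    obtain ⟨q1, q2, q3, q4⟩ := hD S hS
    exact ⟨hupp S q1 q2, q3, q4, Or.inr q1⟩
  · by_cases h2 : c + d ≤ #T + 1
    · obtain ⟨D, hch, hcard, hD⟩ := exists_flag d (T ∩ R) T c hsub hτ h2
      refine ⟨D, hch, hcard, ?_⟩
      intro S hS
      obtain ⟨q1, q2, q3, q4⟩ := hD S hS
      exact ⟨hlow S q1 q2, q3, q4, Or.inl q2⟩
    · obtain ⟨D1, hch1, hcard1, hD1⟩ := exists_flag (#T + 1 - c) (T ∩ R) T c hsub hτ (by omega)
      obtain ⟨D2, hch2, hcard2, hD2⟩ := exists_flag (c + d - (#T + 1)) (insert v T) B (#T + 1) hTB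
        (by omega) (by omega)
      have hdisj : Disjoint D1 D2 := by
        rw [Finset.disjoint_left]
        intro S h3 h4
        have h5 := (hD1 S h3).2.1
        have h6 := (hD2 S h4).1
        exact hT (h5 (h6 (Finset.mem_insert_self v T)))
      refine ⟨D1 ∪ D2, ?_, ?_, ?_⟩
      · intro S hS S' hS' hne
        simp only [Finset.coe_union, Set.mem_union, Finset.mem_coe] at hS hS'
        rcases hS with h | h <;> rcases hS' with h' | h'
        · exact hch1 (by simpa using h) (by simpa using h') hne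
        · left
          exact (hD1 S h).2.1.trans ((Finset.subset_insert v T).trans (hD2 S' h').1)
        · right
          exact (hD1 S' h').2.1.trans ((Finset.subset_insert v T).trans (hD2 S h).1)
        · exact hch2 (by simpa using h) (by simpa using h') hne
      · rw [Finset.card_union_of_disjoint hdisj, hcard1, hcard2]
        omega
      · intro S hS
        rcases Finset.mem_union.1 hS with h | h
        · obtain ⟨q1, q2, q3, q4⟩ := hD1 S h
          exact ⟨hlow S q1 q2, q3, by omega, Or.inl q2⟩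
        · obtain ⟨q1, q2, q3, q4⟩ := hD2 S h
          exact ⟨hupp S q1 q2, by omega, by omega, Or.inr q1⟩

omit [Fintype V] in
/-- a common element of the chain outside `R`, in `insert v T` -/
theorem exists_common (T R : Finset V) (v : V) (hR : v ∉ R) (c : ℕ) (hc : #R < c)
    (D : Finset (Finset V)) (hch : IsChain (· ⊆ ·) (D : Set (Finset V)))
    (hD : ∀ S ∈ D, c ≤ #S ∧ (S ⊆ T ∨ insert v T ⊆ S)) :
    ∃ f, f ∉ R ∧ f ∈ insert v T ∧ ∀ S ∈ D, f ∈ S := by
  rcases D.eq_empty_or_nonempty with h0 | h0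
  · exact ⟨v, hR, Finset.mem_insert_self _ _, by simp [h0]⟩
  · obtain ⟨S₀, hS₀, hmin⟩ := Finset.exists_min_image D (fun S => #S) h0
    have hall : ∀ S ∈ D, S₀ ⊆ S := by
      intro S hS
      by_cases e : S₀ = S
      · rw [e]
      · rcases hch (by simpa using hS₀) (by simpa using hS) e with h | h
        · exact h
        · exact (Finset.eq_of_subset_of_card_le h (hmin S hS)) ▸ subset_rfl
    rcases (hD S₀ hS₀).2 with h | h
    · have h1 : ∃ f ∈ S₀, f ∉ R := by
        by_contra hcon
        push Not at hcon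
        have h2 : S₀ ⊆ R := hcon
        have h3 := Finset.card_le_card h2
        have := (hD S₀ hS₀).1
        omega
      obtain ⟨f, h1, h2⟩ := h1
      exact ⟨f, h2, Finset.mem_insert_of_mem (h h1), fun S hS => hall S hS h1⟩
    · exact ⟨v, hR, Finset.mem_insert_self _ _,
        fun S hS => hall S hS (h (Finset.mem_insert_self v T))⟩

/-- an element outside all members of the chain, outside `R` and outside `T` -/
theorem exists_avoid (T R : Finset V) (v : V) (hT : v ∉ T) (hR : v ∉ R) (c : ℕ)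
    (hc : c ≤ #(Rᶜ))
    (D : Finset (Finset V)) (hch : IsChain (· ⊆ ·) (D : Set (Finset V)))
    (hD : ∀ S ∈ D, #S < c ∧ (S ⊆ T ∨ insert v T ⊆ S)) :
    ∃ e, e ∉ R ∧ e ∉ T ∧ ∀ S ∈ D, e ∉ S := by
  rcases D.eq_empty_or_nonempty with h0 | h0
  · exact ⟨v, hR, hT, by simp [h0]⟩
  · obtain ⟨S₀, hS₀, hmax⟩ := Finset.exists_max_image D (fun S => #S) h0
    have hall : ∀ S ∈ D, S ⊆ S₀ := by
      intro S hS
      by_cases e : S = S₀
      · rw [e]
      · rcases hch (by simpa using hS) (by simpa using hS₀) e with h | h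
        · exact h
        · exact (Finset.eq_of_subset_of_card_le h (hmax S hS)) ▸ subset_rfl
    rcases (hD S₀ hS₀).2 with h | h
    · exact ⟨v, hR, hT, fun S hS h1 => hT (h (hall S hS h1))⟩
    · have h1 : ∃ e ∈ Rᶜ, e ∉ S₀ := by
        by_contra hcon
        push Not at hcon
        have h2 : Rᶜ ⊆ S₀ := hcon
        have h3 := Finset.card_le_card h2
        have := (hD S₀ hS₀).1
        omega
      obtain ⟨e, h1, h2⟩ := h1
      exact ⟨e, by simpa using h1, fun h3 => h2 (h (Finset.mem_insert_of_mem h3)),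
        fun S hS h3 => h2 (hall S hS h3)⟩

/-- the system of pairwise incomparable chains of `d` sets, the `j`-th chain having trace `ρ j` on
`R`, the chain number `j₀` being compatible with `T`, `insert v T`, the others incomparable -/
theorem exists_system {m : ℕ} (j₀ : Fin m) (T R : Finset V) (v : V) (hT : v ∉ T) (hR : v ∉ R)
    (c d : ℕ) (hd1 : 1 ≤ d) (hc : #R + 2 ≤ c) (hd : c + d + m + 2 ≤ #(Rᶜ))
    (ρ : Fin m → Finset V) (hρ : ∀ j, ρ j ⊆ R) (hρ0 : ρ j₀ = T ∩ R) :
    ∃ D : Fin m → Finset (Finset V), (∀ j, IsChain (· ⊆ ·) (D j : Set (Finset V))) ∧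
      (∀ j, #(D j) = d) ∧ (∀ j, ∀ S ∈ D j, c ≤ #S ∧ #S < c + d ∧ S ∩ R = ρ j) ∧
      (∀ j j', j ≠ j' → ∀ S ∈ D j, ∀ S' ∈ D j', ¬ S ⊆ S') ∧
      (∀ S ∈ D j₀, S ⊆ T ∨ insert v T ⊆ S) ∧
      (∀ j, j ≠ j₀ → ∀ S ∈ D j, ¬ S ⊆ T ∧ ¬ insert v T ⊆ S) := by
  obtain ⟨D₀, hch0, hcard0, hD0⟩ := exists_gflag T R v hT hR c d (by omega) (by omega)
  obtain ⟨f, hf1, hf2, hf3⟩ := exists_common T R v hR c (by omega) D₀ hch0
    (fun S hS => ⟨(hD0 S hS).2.1, (hD0 S hS).2.2.2⟩)
  obtain ⟨e, he1, he2, he3⟩ := exists_avoid T R v hT hR (c + d) (by omega) D₀ hch0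
    (fun S hS => ⟨(hD0 S hS).2.2.1, (hD0 S hS).2.2.2⟩)
  -- private elements
  have hY : m ≤ #((Rᶜ).erase f |>.erase e) := by
    have h1 := Finset.pred_card_le_card_erase (s := Rᶜ) (a := f)
    have h2 := Finset.pred_card_le_card_erase (s := (Rᶜ).erase f) (a := e)
    omega
  obtain ⟨y⟩ : Nonempty (Fin m ↪ {x // x ∈ ((Rᶜ).erase f).erase e}) :=
    Function.Embedding.nonempty_of_card_le (by
      rw [Fintype.card_coe, Fintype.card_fin]
      exact hY)
  have hy1 : ∀ j, (y j : V) ∉ R ∧ (y j : V) ≠ f ∧ (y j : V) ≠ e := by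
    intro j
    have := (y j).2
    simp only [Finset.mem_erase, Finset.mem_compl] at this
    exact ⟨this.2.2, this.2.1, this.1⟩
  have hy2 : ∀ j j', (y j : V) = y j' → j = j' := by
    intro j j' h
    exact y.injective (Subtype.ext h)
  have hfe : f ≠ e := by
    obtain ⟨S, hS⟩ : D₀.Nonempty := by
      rw [← Finset.card_pos]
      omega
    intro h
    exact he3 S hS (h ▸ hf3 S hS)
  have hfT : ∀ S : Finset V, f ∉ S → ¬ insert v T ⊆ S := fun S h1 h2 => h1 (h2 hf2)
  -- the other chains
  have hex : ∀ j, ∃ D : Finset (Finset V), IsChain (· ⊆ ·) (D : Set (Finset V)) ∧ #D = d ∧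
      ∀ S ∈ D, c ≤ #S ∧ #S < c + d ∧ S ∩ R = ρ j ∧ e ∈ S ∧ f ∉ S ∧ (y j : V) ∈ S ∧
        ∀ j', j' ≠ j → (y j' : V) ∉ S := by
    intro j
    set A : Finset V := insert e (insert (y j : V) (ρ j)) with hA
    set N : Finset V := insert f ((R \ ρ j) ∪ (univ.erase j).image (fun j' => (y j' : V))) with hN
    have hAc : #A ≤ c := by
      have h1 : #A ≤ #(insert (y j : V) (ρ j)) + 1 := Finset.card_insert_le _ _
      have h2 : #(insert (y j : V) (ρ j)) ≤ #(ρ j) + 1 := Finset.card_insert_le _ _
      have h3 : #(ρ j) ≤ #R := Finset.card_le_card (hρ j)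
      omega
    have hNc : c + d ≤ #(Nᶜ) + 1 := by
      have h1 : #N ≤ #((R \ ρ j) ∪ (univ.erase j).image (fun j' => (y j' : V))) + 1 :=
        Finset.card_insert_le _ _
      have h2 := Finset.card_union_le (R \ ρ j) ((univ.erase j).image (fun j' => (y j' : V)))
      have h3 : #((univ.erase j).image (fun j' => (y j' : V))) ≤ m := by
        refine Finset.card_image_le.trans ?_
        rw [Finset.card_erase_of_mem (Finset.mem_univ j), Finset.card_univ, Fintype.card_fin]
        omega
      have h4 : #(R \ ρ j) ≤ #R := Finset.card_le_card Finset.sdiff_subset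
      have h5 := Finset.card_compl N
      have h6 := Finset.card_compl R
      have h7 : #R ≤ Fintype.card V := Finset.card_le_univ R
      omega
    have hAN : A ⊆ Nᶜ := by
      intro x hx
      simp only [hA, Finset.mem_insert] at hx
      simp only [hN, Finset.mem_compl, Finset.mem_insert, Finset.mem_union, Finset.mem_sdiff,
        Finset.mem_image, Finset.mem_erase, Finset.mem_univ, and_true, not_or, not_exists, not_and]
      rcases hx with h | h | h
      · subst h
        refine ⟨fun h => hfe h.symm, fun h => absurd h he1, ?_⟩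
        intro j' _ h
        exact (hy1 j').2.2 h
      · subst h
        refine ⟨(hy1 j).2.1, fun h => absurd h (hy1 j).1, ?_⟩
        intro j' h1 h2
        exact h1 (hy2 _ _ h2)
      · refine ⟨?_, fun _ => by simpa using h, ?_⟩
        · rintro rfl
          exact hf1 (hρ j h)
        · intro j' _ h2
          exact (hy1 j').1 (h2 ▸ hρ j h)
    obtain ⟨D, hch, hcard, hD⟩ := exists_flag d A (Nᶜ) c hAN hAc hNc
    refine ⟨D, hch, hcard, ?_⟩
    intro S hS
    obtain ⟨q1, q2, q3, q4⟩ := hD S hS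
    have hnot : ∀ x ∈ N, x ∉ S := by
      intro x hx hxS
      have := q2 hxS
      rw [Finset.mem_compl] at this
      exact this hx
    refine ⟨q3, q4, ?_, q1 (Finset.mem_insert_self _ _), hnot f (Finset.mem_insert_self _ _),
      q1 (Finset.mem_insert_of_mem (Finset.mem_insert_self _ _)), ?_⟩
    · ext x
      rw [Finset.mem_inter]
      constructor
      · rintro ⟨h1, h2⟩
        by_contra h3
        refine hnot x ?_ h1
        rw [hN, Finset.mem_insert, Finset.mem_union, Finset.mem_sdiff]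
        exact Or.inr (Or.inl ⟨h2, h3⟩)
      · intro h1
        exact ⟨q1 (Finset.mem_insert_of_mem (Finset.mem_insert_of_mem h1)), hρ j h1⟩
    · intro j' hj'
      apply hnot
      rw [hN, Finset.mem_insert, Finset.mem_union, Finset.mem_image]
      exact Or.inr (Or.inr ⟨j', by simp [hj'], rfl⟩)
  choose E hE1 hE2 hE3 using hex
  refine ⟨fun j => if j = j₀ then D₀ else E j, ?_, ?_, ?_, ?_, ?_, ?_⟩
  · intro j
    by_cases h : j = j₀
    · simp only [h, if_true]
      exact hch0
    · simp only [h, if_false]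
      exact hE1 j
  · intro j
    by_cases h : j = j₀
    · simp only [h, if_true]
      exact hcard0
    · simp only [h, if_false]
      exact hE2 j
  · intro j S hS
    by_cases h : j = j₀
    · simp only [h, if_true] at hS
      obtain ⟨q1, q2, q3, q4⟩ := hD0 S hS
      exact ⟨q2, q3, by rw [q1, h, hρ0]⟩
    · simp only [h, if_false] at hS
      obtain ⟨q1, q2, q3, q4⟩ := hE3 j S hS
      exact ⟨q1, q2, q3⟩
  · intro j j' hjj S hS S' hS' hsub
    by_cases h : j = j₀
    · have h' : j' ≠ j₀ := fun h' => hjj (h.trans h'.symm)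
      simp only [h, if_true] at hS
      simp only [h', if_false] at hS'
      exact (hE3 j' S' hS').2.2.2.2.1 (hsub (hf3 S hS))
    · simp only [h, if_false] at hS
      by_cases h' : j' = j₀
      · simp only [h', if_true] at hS'
        exact he3 S' hS' (hsub (hE3 j S hS).2.2.2.1)
      · simp only [h', if_false] at hS'
        exact (hE3 j' S' hS').2.2.2.2.2.2 j hjj (hsub (hE3 j S hS).2.2.2.2.2.1)
  · intro S hS
    simp only [if_true] at hS
    exact (hD0 S hS).2.2.2
  · intro j hj S hS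
    simp only [hj, if_false] at hS
    exact ⟨fun h => he2 (h (hE3 j S hS).2.2.2.1), hfT S (hE3 j S hS).2.2.2.2.1⟩

end Pool.Agent.Q326.Sat
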