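import Pool.Agent.Q326.Sat.Blockers

/-!
# The middle sets together with the blocking sets contain no copy
-/

namespace Pool.Agent.Q326.Sat

open Finset

variable {V : Type} [DecidableEq V] [Fintype V]

/-- a chain of `d + 1` sets in `middle ∪ blockers` contains a blocker -/
theorem exists_blocker {R : Finset V} {c d : ℕ} {k : ℕ} (hk : d + 1 ≤ k)
    (b : Fin k → Finset V) (hb : ∀ p, b p ∈ middle V c d ∪ blockers R)
    (hmono : ∀ p q : Fin k, (p : ℕ) ≤ q ↔ b p ⊆ b q) : ∃ p, b p ∈ blockers R := by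
  by_contra hcon
  push Not at hcon
  have hmid : ∀ p, c ≤ #(b p) ∧ #(b p) < c + d := by
    intro p
    rcases Finset.mem_union.1 (hb p) with h | h
    · exact mem_middle.1 h
    · exact absurd h (hcon p)
  have hinj : Function.Injective (fun p => #(b p)) := by
    intro p q h
    simp only at h
    rcases Nat.le_total (p : ℕ) q with h1 | h1
    · have h2 := (hmono p q).1 h1
      have h3 := Finset.eq_of_subset_of_card_le h2 h.ge
      have h4 := (hmono q p).2 (by rw [h3])
      exact Fin.ext (le_antisymm h1 h4)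
    · have h2 := (hmono q p).1 h1
      have h3 := Finset.eq_of_subset_of_card_le h2 h.le
      have h4 := (hmono p q).2 (by rw [h3])
      exact Fin.ext (le_antisymm h4 h1)
  have h1 : #((univ : Finset (Fin k)).image (fun p => #(b p))) = k := by
    rw [Finset.card_image_of_injective _ hinj, Finset.card_univ, Fintype.card_fin]
  have h2 : (univ : Finset (Fin k)).image (fun p => #(b p)) ⊆ Finset.Ico c (c + d) := by
    intro x hx
    obtain ⟨p, _, rfl⟩ := Finset.mem_image.1 hx
    rw [Finset.mem_Ico]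
    exact hmid p
  have h3 := Finset.card_le_card h2
  rw [h1, Nat.card_Ico] at h3
  omega

/-- no copy of `C_{i_1} + ⋯ + C_{i_m}` in `middle ∪ blockers`, when `#R + 1` of the chains have at
least `d + 1` elements and there is a further chain -/
theorem no_copy {m : ℕ} {i : Fin m → ℕ} {R : Finset V} {c d : ℕ} (K : Finset (Fin m))
    (hK : #K = #R + 1) (hKi : ∀ j ∈ K, d + 1 ≤ i j) (j₁ : Fin m) (hj₁ : j₁ ∉ K) (hi₁ : 1 ≤ i j₁) :
    ¬ HasCopy (Chains i) (middle V c d ∪ blockers R) := by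
  rintro ⟨b, -, hbF, hb⟩
  have hbj : ∀ j (p q : Fin (i j)), (p : ℕ) ≤ q ↔ b ⟨j, p⟩ ⊆ b ⟨j, q⟩ := by
    intro j p q
    rw [← hb, chains_le_iff]
    simp
  have hcmp : ∀ j (p : Fin (i j)) j' (q : Fin (i j')), b ⟨j, p⟩ ⊆ b ⟨j', q⟩ → j = j' := by
    intro j p j' q h
    rw [← hb, chains_le_iff] at h
    exact h.1
  -- a blocker in each long chain
  have hex : ∀ j : {j // j ∈ K}, ∃ p : Fin (i j), b ⟨j, p⟩ ∈ blockers R := by
    intro j
    exact exists_blocker (hKi j j.2) (fun p => b ⟨j, p⟩) (fun p => hbF _) (hbj j)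
  choose p hp using hex
  -- its class
  have hcl : ∀ j : {j // j ∈ K}, ∃ o ∈ insert none (R.image some),
      (o = none ∧ b ⟨j, p j⟩ = Rᶜ) ∨
        ∃ x, o = some x ∧ (b ⟨j, p j⟩ = {x} ∨ b ⟨j, p j⟩ = insert x Rᶜ) := by
    intro j
    rcases mem_blockers.1 (hp j) with ⟨x, hx, h⟩ | h | ⟨x, hx, h⟩
    · exact ⟨some x, by simp [hx], Or.inr ⟨x, rfl, Or.inl h⟩⟩
    · exact ⟨none, by simp, Or.inl ⟨rfl, h⟩⟩
    · exact ⟨some x, by simp [hx], Or.inr ⟨x, rfl, Or.inr h⟩⟩
  choose o ho1 ho2 using hcl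
  have hlu : ∀ x : V, ({x} : Finset V) ⊆ insert x Rᶜ := by
    intro x
    simp
  have hoinj : Function.Injective o := by
    intro j j' h
    apply Subtype.ext
    rcases ho2 j with ⟨h1, h2⟩ | ⟨x, h1, h2⟩
    · rcases ho2 j' with ⟨h1', h2'⟩ | ⟨x', h1', h2'⟩
      · exact hcmp _ (p j) _ (p j') (by rw [h2, h2'])
      · rw [h, h1'] at h1
        cases h1
    · rcases ho2 j' with ⟨h1', h2'⟩ | ⟨x', h1', h2'⟩
      · rw [h, h1'] at h1
        cases h1
      · have hx : x' = x := by
          rw [h, h1'] at h1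
          exact Option.some.inj h1
        subst hx
        rcases h2 with h2 | h2 <;> rcases h2' with h2' | h2'
        · exact hcmp _ (p j) _ (p j') (by rw [h2, h2'])
        · exact hcmp _ (p j) _ (p j') (by rw [h2, h2']; exact hlu x')
        · exact (hcmp _ (p j') _ (p j) (by rw [h2, h2']; exact hlu x')).symm
        · exact hcmp _ (p j) _ (p j') (by rw [h2, h2'])
  have himg : (univ : Finset {j // j ∈ K}).image o = insert none (R.image some) := by
    apply Finset.eq_of_subset_of_card_le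
    · intro x hx
      obtain ⟨j, _, rfl⟩ := Finset.mem_image.1 hx
      exact ho1 j
    · rw [Finset.card_image_of_injective _ hoinj, Finset.card_univ, Fintype.card_coe, hK]
      refine (Finset.card_insert_le _ _).trans ?_
      rw [Finset.card_image_of_injective _ (Option.some_injective V)]
  have hnone : ∃ j, o j = none := by
    have : none ∈ (univ : Finset {j // j ∈ K}).image o := by
      rw [himg]
      exact Finset.mem_insert_self _ _
    obtain ⟨j, _, h⟩ := Finset.mem_image.1 this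
    exact ⟨j, h⟩
  obtain ⟨jn, hjn⟩ := hnone
  have hbn : b ⟨jn, p jn⟩ = Rᶜ := by
    rcases ho2 jn with ⟨_, h⟩ | ⟨x, h, _⟩
    · exact h
    · rw [hjn] at h
      cases h
  have hlow : ∀ x ∈ R, ∃ j : {j // j ∈ K}, b ⟨j, p j⟩ = {x} := by
    intro x hx
    have : some x ∈ (univ : Finset {j // j ∈ K}).image o := by
      rw [himg]
      simp [hx]
    obtain ⟨j, _, h⟩ := Finset.mem_image.1 this
    refine ⟨j, ?_⟩
    rcases ho2 j with ⟨h1, _⟩ | ⟨x', h1, h2⟩
    · rw [h] at h1
      cases h1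
    · rw [h] at h1
      cases h1
      rcases h2 with h2 | h2
      · exact h2
      · exfalso
        have h3 : b ⟨jn, p jn⟩ ⊆ b ⟨j, p j⟩ := by
          rw [hbn, h2]
          exact Finset.subset_insert _ _
        have h4 := Subtype.ext (hcmp _ _ _ _ h3)
        rw [← h4, hjn] at h
        cases h
  -- the further chain
  set Y := b ⟨j₁, ⟨0, hi₁⟩⟩ with hY
  by_cases h : ∃ x ∈ R, x ∈ Y
  · obtain ⟨x, hx, hxY⟩ := h
    obtain ⟨j, hj⟩ := hlow x hx
    have h1 : b ⟨j, p j⟩ ⊆ b ⟨j₁, ⟨0, hi₁⟩⟩ := by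
      rw [hj, ← hY]
      simpa using hxY
    have h2 := hcmp _ _ _ _ h1
    exact hj₁ (h2 ▸ j.2)
  · push Not at h
    have h1 : b ⟨j₁, ⟨0, hi₁⟩⟩ ⊆ b ⟨jn, p jn⟩ := by
      rw [hbn, ← hY]
      intro x hx
      rw [Finset.mem_compl]
      exact fun hxR => h x hxR hx
    have h2 := hcmp _ _ _ _ h1
    exact hj₁ (h2 ▸ jn.2)

end Pool.Agent.Q326.Sat
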