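import Pool.Agent.Q326.Sat.Equal

/-!
# Linear upper bound for all unions of chains
-/

namespace Pool.Agent.Q326.Sat

open Finset

section

variable {α : Type} [LinearOrder α] [Fintype α]

/-- a chain of `d + 1` sets with trace `{x}` on `R`, containing `y` and not `g` -/
theorem exists_side_chain {M R : Finset α} (hRM : R ⊆ M) {x : α} (hx : x ∈ R) {y g : α}
    (hy : y ∉ M) (hg : g ∉ M) (hyg : y < g) (hM : 3 ≤ #Mᶜ) {c d : ℕ} (hc : 4 ≤ c)
    (hd : c + d + #R ≤ #M + 3) :
    ∃ D : Finset (Finset α), IsChain (· ⊆ ·) (D : Set (Finset α)) ∧ #D = d + 1 ∧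
      ∀ S ∈ D, S ∈ lay M c d ∪ strands M R ∧ y ∈ S ∧ g ∉ S ∧ S ∩ R = {x} := by
  set B := M \ (R.erase x) with hB
  have hxM : x ∈ M := hRM hx
  have hxB : ({x} : Finset α) ⊆ B := by
    rw [Finset.singleton_subset_iff, hB, Finset.mem_sdiff]
    exact ⟨hxM, by simp⟩
  have hBM : B ⊆ M := Finset.sdiff_subset
  have hBc : #M ≤ #B + #R := by
    have h1 : #(R.erase x) ≤ #R := Finset.card_le_card (Finset.erase_subset _ _)
    have h2 := Finset.le_card_sdiff (R.erase x) M
    rw [← hB] at h2
    omega
  obtain ⟨D, e1, e2, e3⟩ := exists_flag d {x} B (c - 2) hxB (by simp; omega) (by omega)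
  set up : Finset α → Finset α := fun S => S ∪ (Mᶜ).erase g with hup
  set z : Finset α := insert x (seg M g) with hz
  have hgc : g ∈ Mᶜ := Finset.mem_compl.2 hg
  have hupM : ∀ S, S ⊆ M → up S ∩ M = S := by
    intro S h
    ext w
    simp only [hup, Finset.mem_inter, Finset.mem_union, Finset.mem_erase, Finset.mem_compl]
    constructor
    · rintro ⟨h1 | h1, h2⟩
      · exact h1
      · exact absurd h2 h1.2
    · intro h1
      exact ⟨Or.inl h1, h h1⟩
  have hupO : ∀ S, S ⊆ M → up S \ M = (Mᶜ).erase g := by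
    intro S h
    ext w
    simp only [hup, Finset.mem_sdiff, Finset.mem_union, Finset.mem_erase, Finset.mem_compl]
    constructor
    · rintro ⟨h1 | h1, h2⟩
      · exact absurd (h h1) h2
      · exact h1
    · intro h1
      exact ⟨Or.inr h1, h1.2⟩
  have hcerase : #((Mᶜ).erase g) + 1 = #Mᶜ := Finset.card_erase_add_one hgc
  have huprk : ∀ S, S ⊆ M → rk M (up S) = #S + 2 := by
    intro S h
    unfold rk rkOut
    rw [hupM S h, hupO S h]
    split_ifs <;> omega
  have hzM : z ∩ M = {x} := by
    ext w
    simp only [hz, seg, Finset.mem_inter, Finset.mem_insert, Finset.mem_filter, Finset.mem_compl,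
      Finset.mem_singleton]
    constructor
    · rintro ⟨h1 | h1, h2⟩
      · exact h1
      · exact absurd h2 h1.1
    · rintro rfl
      exact ⟨Or.inl rfl, hxM⟩
  have hzsub : ∀ S ∈ D, z ⊆ up S := by
    intro S hS w hw
    simp only [hz, seg, Finset.mem_insert, Finset.mem_filter, Finset.mem_compl] at hw
    simp only [hup, Finset.mem_union, Finset.mem_erase, Finset.mem_compl]
    rcases hw with rfl | ⟨h1, h2⟩
    · exact Or.inl ((e3 S hS).1 (Finset.mem_singleton_self _))
    · exact Or.inr ⟨ne_of_lt h2, h1⟩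
  have hznot : z ∉ D.image up := by
    intro h
    obtain ⟨S, hS, h1⟩ := Finset.mem_image.1 h
    have h2 : up S ∩ M = z ∩ M := by rw [h1]
    rw [hupM S ((e3 S hS).2.1.trans hBM), hzM] at h2
    have h3 := (e3 S hS).2.2.1
    rw [h2, Finset.card_singleton] at h3
    omega
  refine ⟨insert z (D.image up), ?_, ?_, ?_⟩
  · rw [Finset.coe_insert]
    apply IsChain.insert
    · intro X hX X' hX' hne
      simp only [Finset.coe_image, Set.mem_image, Finset.mem_coe] at hX hX'
      obtain ⟨S, hS, rfl⟩ := hX
      obtain ⟨S', hS', rfl⟩ := hX'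
      have hne' : S ≠ S' := fun h => hne (by rw [h])
      rcases e1 (by simpa using hS) (by simpa using hS') hne' with h | h
      · exact Or.inl (Finset.union_subset_union h subset_rfl)
      · exact Or.inr (Finset.union_subset_union h subset_rfl)
    · intro X hX _
      simp only [Finset.coe_image, Set.mem_image, Finset.mem_coe] at hX
      obtain ⟨S, hS, rfl⟩ := hX
      exact Or.inl (hzsub S hS)
  · rw [Finset.card_insert_of_notMem hznot, Finset.card_image_of_injOn, e2]
    intro S hS S' hS' h
    have h1 : S ⊆ M := (e3 S (by simpa using hS)).2.1.trans hBM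
    have h2 : S' ⊆ M := (e3 S' (by simpa using hS')).2.1.trans hBM
    rw [← hupM S h1, ← hupM S' h2, h]
  · intro X hX
    rcases Finset.mem_insert.1 hX with rfl | h
    · refine ⟨Finset.mem_union_right _ (mem_strands.2 ⟨x, hx, g, rfl⟩), ?_, ?_, ?_⟩
      · apply Finset.mem_insert_of_mem
        simp only [seg, Finset.mem_filter, Finset.mem_compl]
        exact ⟨hy, hyg⟩
      · simp only [hz, seg, Finset.mem_insert, Finset.mem_filter, Finset.mem_compl, not_or, not_and]
        exact ⟨fun h => hg (h ▸ hxM), fun _ => lt_irrefl g⟩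
      · have h1 : z ∩ R = (z ∩ M) ∩ R := by
          rw [Finset.inter_assoc, Finset.inter_eq_right.2 hRM]
        rw [h1, hzM]
        ext w
        simp only [Finset.mem_inter, Finset.mem_singleton]
        constructor
        · rintro ⟨h1, _⟩
          exact h1
        · rintro rfl
          exact ⟨rfl, hx⟩
    · obtain ⟨S, hS, rfl⟩ := Finset.mem_image.1 h
      obtain ⟨q1, q2, q3, q4⟩ := e3 S hS
      have q5 := q2.trans hBM
      refine ⟨Finset.mem_union_left _ ?_, ?_, ?_, ?_⟩
      · rw [mem_lay, huprk S q5, hupO S q5]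
        exact ⟨Or.inr (Or.inr (Or.inl hcerase)), by omega, by omega⟩
      · simp only [hup, Finset.mem_union, Finset.mem_erase, Finset.mem_compl]
        exact Or.inr ⟨ne_of_lt hyg, hy⟩
      · simp only [hup, Finset.mem_union, Finset.mem_erase, Finset.mem_compl]
        rintro (h1 | h1)
        · exact hg (q5 h1)
        · exact h1.1 rfl
      · ext w
        simp only [hup, Finset.mem_inter, Finset.mem_union, Finset.mem_erase, Finset.mem_compl,
          Finset.mem_singleton]
        constructor
        · rintro ⟨h1 | h1, h2⟩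
          · have h3 := q2 h1
            rw [hB, Finset.mem_sdiff, Finset.mem_erase] at h3
            by_contra hne
            exact h3.2 ⟨hne, h2⟩
          · exact absurd (hRM h2) h1.2
        · rintro rfl
          exact ⟨Or.inl (q1 (Finset.mem_singleton_self _)), hx⟩

/-- adding a set which is not special to the layers and the strands creates a copy of `m C_k` -/
theorem hasCopy_of_not_special {m : ℕ} {i : Fin m → ℕ} {M : Finset α} (r : Fin m → α)
    (hr : ∀ j j', r j = r j' → j = j') (hrM : ∀ j, r j ∈ M) (j₀ : Fin m) {c d : ℕ}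
    (hi : ∀ j, i j ≤ d + 1) (hM : 3 ≤ #Mᶜ) (hc : 4 ≤ c) (hd : c + d + m ≤ #M + 3)
    (G : Finset α) (hG : ¬ Special M G) :
    HasCopy (Chains i) (insert G (lay M c d ∪ strands M ((univ.erase j₀).image r))) := by
  set R := (univ.erase j₀).image r with hR
  obtain ⟨y, g, hy, hg, hyg, hyG, hgG⟩ := exists_inversion hG
  have hRM : R ⊆ M := by
    intro w hw
    obtain ⟨j, _, rfl⟩ := Finset.mem_image.1 hw
    exact hrM j
  have hRc : #R ≤ m := by
    refine Finset.card_image_le.trans ?_
    simp
  obtain ⟨D, d1, d2, d3⟩ := exists_main_chain (G := G) hy hg (ne_of_lt hyg) hyG hgG hM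
    (c := c) (d := d) (by omega) (by omega)
  have hex : ∀ j : Fin m, ∃ E : Finset (Finset α), j ≠ j₀ →
      (IsChain (· ⊆ ·) (E : Set (Finset α)) ∧ #E = d + 1 ∧
        ∀ S ∈ E, S ∈ lay M c d ∪ strands M R ∧ y ∈ S ∧ g ∉ S ∧ S ∩ R = {r j}) := by
    intro j
    by_cases hj : j = j₀
    · exact ⟨∅, fun h => absurd hj h⟩
    · have hx : r j ∈ R := Finset.mem_image_of_mem r (by simp [hj])
      obtain ⟨E, h⟩ := exists_side_chain hRM hx hy hg hyg hM hc (d := d) (by omega)
      exact ⟨E, fun _ => h⟩
  choose E hE using hex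
  have hGnot : G ∉ D := by
    intro h
    have h1 := (mem_lay.1 (d3 G h).1).1
    apply hG
    unfold Special
    tauto
  apply hasCopy_of_chains (fun j => if j = j₀ then insert G D else E j)
  · intro j X hX
    by_cases hj : j = j₀
    · simp only [hj, if_true] at hX
      rcases Finset.mem_insert.1 hX with rfl | h
      · exact Finset.mem_insert_self _ _
      · exact Finset.mem_insert_of_mem (Finset.mem_union_left _ (d3 X h).1)
    · simp only [hj, if_false] at hX
      exact Finset.mem_insert_of_mem ((hE j hj).2.2 X hX).1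
  · intro j
    by_cases hj : j = j₀
    · simp only [hj, if_true]
      rw [Finset.coe_insert]
      apply d1.insert
      intro X hX _
      rcases (d3 X (by simpa using hX)).2.2.2 with h | h
      · exact Or.inr h
      · exact Or.inl h
    · simp only [hj, if_false]
      exact (hE j hj).1
  · intro j
    by_cases hj : j = j₀
    · simp only [hj, if_true]
      rw [Finset.card_insert_of_notMem hGnot, d2]
      exact hi j₀
    · simp only [hj, if_false]
      rw [(hE j hj).2.1]
      exact hi j
  · intro j j' hne X hX X' hX' hsub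
    have hmain : ∀ S ∈ insert G D, g ∈ S ∧ y ∉ S := by
      intro S hS
      rcases Finset.mem_insert.1 hS with rfl | h
      · exact ⟨hgG, hyG⟩
      · exact ⟨(d3 S h).2.2.1, (d3 S h).2.1⟩
    by_cases hj : j = j₀
    · have hj' : j' ≠ j₀ := fun h => hne (hj.trans h.symm)
      simp only [hj, if_true] at hX
      simp only [hj', if_false] at hX'
      exact ((hE j' hj').2.2 X' hX').2.2.1 (hsub (hmain X hX).1)
    · simp only [hj, if_false] at hX
      by_cases hj' : j' = j₀
      · simp only [hj', if_true] at hX'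
        exact (hmain X' hX').2 (hsub ((hE j hj).2.2 X hX).2.1)
      · simp only [hj', if_false] at hX'
        have h1 := ((hE j hj).2.2 X hX).2.2.2
        have h2 := ((hE j' hj').2.2 X' hX').2.2.2
        have h3 : X ∩ R ⊆ X' ∩ R := Finset.inter_subset_inter_right hsub
        rw [h1, h2, Finset.singleton_subset_iff, Finset.mem_singleton] at h3
        exact hne (hr _ _ h3)

/-- the special sets as a finset containing them -/
def specialSets (M : Finset α) : Finset (Finset α) :=
  (M.powerset ×ˢ (({∅} ∪ {Mᶜ}) ∪ ((univ : Finset α).image (fun b => {b}) ∪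
    ((univ : Finset α).image (fun b => (Mᶜ).erase b) ∪ (univ : Finset α).image (seg M))))).image
    (fun p => p.1 ∪ p.2)

theorem mem_specialSets {M G : Finset α} (h : Special M G) : G ∈ specialSets M := by
  have hsub : G \ M ⊆ Mᶜ := by
    intro x hx
    rw [Finset.mem_sdiff] at hx
    exact Finset.mem_compl.2 hx.2
  unfold specialSets
  rw [Finset.mem_image]
  refine ⟨(G ∩ M, G \ M), ?_, ?_⟩
  · rw [Finset.mem_product]
    refine ⟨Finset.mem_powerset.2 Finset.inter_subset_right, ?_⟩
    simp only [Finset.mem_union, Finset.mem_singleton, Finset.mem_image, Finset.mem_univ, true_and]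
    rcases h with h | h | h | h | ⟨g, h⟩
    · exact Or.inl (Or.inl (Finset.card_eq_zero.1 h))
    · obtain ⟨b, hb⟩ := Finset.card_eq_one.1 h
      exact Or.inr (Or.inl ⟨b, hb.symm⟩)
    · have h1 : #(Mᶜ \ (G \ M)) = 1 := by
        rw [Finset.card_sdiff_of_subset hsub]
        omega
      obtain ⟨b, hb⟩ := Finset.card_eq_one.1 h1
      refine Or.inr (Or.inr (Or.inl ⟨b, ?_⟩))
      ext x
      rw [Finset.mem_erase]
      constructor
      · rintro ⟨h2, h3⟩
        by_contra h4
        have : x ∈ Mᶜ \ (G \ M) := Finset.mem_sdiff.2 ⟨h3, h4⟩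
        rw [hb, Finset.mem_singleton] at this
        exact h2 this
      · intro h2
        refine ⟨?_, hsub h2⟩
        rintro rfl
        have : x ∈ Mᶜ \ (G \ M) := by rw [hb]; exact Finset.mem_singleton_self _
        exact (Finset.mem_sdiff.1 this).2 h2
    · exact Or.inl (Or.inr (Finset.eq_of_subset_of_card_le hsub h.ge))
    · exact Or.inr (Or.inr (Or.inr ⟨g, h.symm⟩))
  · simp only
    rw [Finset.union_comm]
    exact Finset.sdiff_union_inter G M

theorem card_specialSets (M : Finset α) : #(specialSets M) ≤ 2 ^ #M * (2 + 3 * Fintype.card α) := by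
  unfold specialSets
  refine Finset.card_image_le.trans ?_
  rw [Finset.card_product, Finset.card_powerset]
  apply Nat.mul_le_mul_left
  refine (Finset.card_union_le _ _).trans ?_
  have h1 : #(({∅} ∪ {Mᶜ}) : Finset (Finset α)) ≤ 2 := by
    refine (Finset.card_union_le _ _).trans ?_
    simp
  have h2 : #((univ : Finset α).image (fun b => ({b} : Finset α))) ≤ Fintype.card α :=
    Finset.card_image_le
  have h3 : #((univ : Finset α).image (fun b => (Mᶜ).erase b)) ≤ Fintype.card α :=
    Finset.card_image_le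
  have h4 : #((univ : Finset α).image (seg M)) ≤ Fintype.card α := Finset.card_image_le
  have h5 := Finset.card_union_le ((univ : Finset α).image (fun b => ({b} : Finset α)))
    ((univ : Finset α).image (fun b => (Mᶜ).erase b) ∪ (univ : Finset α).image (seg M))
  have h6 := Finset.card_union_le ((univ : Finset α).image (fun b => (Mᶜ).erase b))
    ((univ : Finset α).image (seg M))
  omega

/-- the linear saturated family for `m C_k` -/
theorem exists_linear_equal {m : ℕ} {i : Fin m → ℕ} {M : Finset α} (r : Fin m → α)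
    (hr : ∀ j j', r j = r j' → j = j') (hrM : ∀ j, r j ∈ M) (j₀ : Fin m) {d : ℕ}
    (hi : ∀ j, i j = d + 1) (hM : 3 ≤ #Mᶜ) (hd : 1 + d + m ≤ #M) :
    ∃ F : Finset (Finset α), IsSaturated (Chains i) F ∧
      #F ≤ 2 ^ #M * (2 + 3 * Fintype.card α) := by
  classical
  set R := (univ.erase j₀).image r with hR
  have hRc : #R < m := by
    have h1 : #R ≤ #(univ.erase j₀ : Finset (Fin m)) := Finset.card_image_le
    have h2 : #(univ.erase j₀ : Finset (Fin m)) + 1 = #(univ : Finset (Fin m)) :=
      Finset.card_erase_add_one (Finset.mem_univ j₀)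
    rw [Finset.card_univ, Fintype.card_fin] at h2
    omega
  have hfree : ¬ HasCopy (Chains i) (lay M 4 d ∪ strands M R) :=
    no_copy_equal hM hRc (fun j => (hi j).ge)
  obtain ⟨F, hF1, hF2⟩ := exists_saturated (Chains i) _ hfree
  refine ⟨F, hF2, ?_⟩
  refine (Finset.card_le_card ?_).trans (card_specialSets M)
  intro G hG
  apply mem_specialSets
  by_contra hsp
  apply hF2.1
  refine (hasCopy_of_not_special r hr hrM j₀ (c := 4) (d := d) (fun j => (hi j).le) hM le_rfl
    (by omega) G hsp).mono ?_
  intro X hX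
  rcases Finset.mem_insert.1 hX with rfl | h
  · exact hG
  · exact hF1 h

end

/-- **Linear bound for `m C_k`.** -/
theorem linear_saturation_equal {m : ℕ} (i : Fin m → ℕ) (hm : 0 < m) {d : ℕ}
    (hi : ∀ j, i j = d + 1) :
    ∃ C : ℕ, ∀ n : ℕ, 1 ≤ n → ∃ F : Finset (Finset (Fin n)),
      IsSaturated (Chains i) F ∧ #F ≤ C * n := by
  classical
  set N : ℕ := 1 + d + m with hN
  refine ⟨2 ^ (N + 3), ?_⟩
  intro n hn1
  by_cases hn : N + 3 ≤ n
  · set M : Finset (Fin n) := (univ : Finset (Fin n)).filter (fun x => (x : ℕ) < N) with hM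
    have hMc : #M = N := by
      have h1 : M = (univ : Finset (Fin N)).map (Fin.castLEEmb (by omega : N ≤ n)) := by
        ext x
        simp only [hM, Finset.mem_filter, Finset.mem_univ, true_and, Finset.mem_map]
        constructor
        · intro h
          exact ⟨⟨x, h⟩, Fin.ext rfl⟩
        · rintro ⟨w, rfl⟩
          exact w.2
      rw [h1, Finset.card_map, Finset.card_univ, Fintype.card_fin]
    have hMcc : 3 ≤ #Mᶜ := by
      rw [Finset.card_compl, Fintype.card_fin, hMc]
      omega
    obtain ⟨F, h1, h2⟩ := exists_linear_equal (i := i) (M := M)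
      (fun j => (⟨j, by have := j.2; omega⟩ : Fin n))
      (fun j j' h => by
        have := congrArg Fin.val h
        exact Fin.ext (by simpa using this))
      (fun j => by
        simp only [hM, Finset.mem_filter, Finset.mem_univ, true_and]
        have := j.2
        omega) (⟨0, hm⟩ : Fin m) hi hMcc (by omega)
    refine ⟨F, h1, h2.trans ?_⟩
    rw [hMc, Fintype.card_fin]
    have h3 : 2 + 3 * n ≤ 2 ^ 3 * n := by omega
    calc 2 ^ N * (2 + 3 * n) ≤ 2 ^ N * (2 ^ 3 * n) := Nat.mul_le_mul_left _ h3
      _ = 2 ^ (N + 3) * n := by rw [pow_add]; ring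
  · obtain ⟨F, -, hF⟩ := exists_saturated (Chains i) (∅ : Finset (Finset (Fin n))) (by
      rintro ⟨b', -, h2, -⟩
      have := h2 ⟨⟨0, hm⟩, ⟨0, by rw [hi]; omega⟩⟩
      simp at this)
    refine ⟨F, hF, ?_⟩
    have h1 : #F ≤ 2 ^ n := by
      have := Finset.card_le_univ F
      rwa [Fintype.card_finset, Fintype.card_fin] at this
    have h2 : 2 ^ n ≤ 2 ^ (N + 3) := Nat.pow_le_pow_right (by norm_num) (by omega)
    have h3 : 2 ^ (N + 3) ≤ 2 ^ (N + 3) * n := Nat.le_mul_of_pos_right _ hn1
    omega

/-- **Linear bound for all unions of chains.** -/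
theorem linear_saturation {m : ℕ} (hm : 0 < m) (i : Fin m → ℕ) (hpos : ∀ j, 1 ≤ i j) :
    ∃ C : ℕ, ∀ n : ℕ, 1 ≤ n → ∃ F : Finset (Finset (Fin n)),
      IsSaturated (Chains i) F ∧ #F ≤ C * n := by
  by_cases h : ∃ a b, i a < i b
  · obtain ⟨C, hC⟩ := bounded_saturation i hpos h
    refine ⟨C, fun n hn => ?_⟩
    obtain ⟨F, h1, h2⟩ := hC n
    exact ⟨F, h1, h2.trans (Nat.le_mul_of_pos_right _ hn)⟩
  · push Not at h
    obtain ⟨d, hd⟩ : ∃ d, i ⟨0, hm⟩ = d + 1 := ⟨i ⟨0, hm⟩ - 1, by
      have := hpos ⟨0, hm⟩
      omega⟩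
    exact linear_saturation_equal i hm (d := d) (fun j => by
      have h1 := h j ⟨0, hm⟩
      have h2 := h ⟨0, hm⟩ j
      omega)

end Pool.Agent.Q326.Sat
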